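import Mathlib
import Pool.Agent.KS7_39.Helper540.Taylor

set_option autoImplicit false

namespace Pool.Agent.KS7_39.H540

open Metric Set Filter Topology

section Circ

theorem circInt {r : ℝ} (hr : 0 ≤ r) {f : ℂ → ℂ} (hf : ContinuousOn f (sphere 0 r)) :
    CircleIntegrable f 0 r := by
  apply ContinuousOn.circleIntegrable hr hf

theorem circInt_re {r : ℝ} (hr : 0 ≤ r) {f : ℂ → ℝ} (hf : ContinuousOn f (sphere 0 r)) :
    CircleIntegrable f 0 r := by
  apply ContinuousOn.circleIntegrable hr hf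

theorem ne_zero_of_sphere {r : ℝ} (hr : 0 < r) {z : ℂ} (hz : z ∈ sphere (0 : ℂ) r) : z ≠ 0 := by
  intro h
  rw [mem_sphere_zero_iff_norm, h, norm_zero] at hz
  linarith

theorem norm_circleAverage_le {r : ℝ} {f : ℂ → ℂ} {g : ℂ → ℝ}
    (hg : CircleIntegrable g 0 r) (hr : 0 ≤ r) (h : ∀ z ∈ sphere (0 : ℂ) r, ‖f z‖ ≤ g z) :
    ‖Real.circleAverage f 0 r‖ ≤ Real.circleAverage g 0 r := by
  rw [Real.circleAverage, Real.circleAverage, norm_smul, norm_inv,
    Real.norm_of_nonneg Real.two_pi_pos.le, smul_eq_mul]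
  apply mul_le_mul_of_nonneg_left _ (inv_nonneg.2 Real.two_pi_pos.le)
  apply intervalIntegral.norm_integral_le_of_norm_le Real.two_pi_pos.le
  · apply Filter.Eventually.of_forall
    intro θ _
    exact h _ (circleMap_mem_sphere _ hr θ)
  · exact hg

theorem re_circleAverage {r : ℝ} {f : ℂ → ℂ} (hf : CircleIntegrable f 0 r) :
    Real.circleAverage (fun z => (f z).re) 0 r = (Real.circleAverage f 0 r).re :=
  Complex.reCLM.circleAverage_comp_comm hf

theorem conj_circleAverage {r : ℝ} {f : ℂ → ℂ} (hf : CircleIntegrable f 0 r) :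
    Real.circleAverage (fun z => (starRingEnd ℂ) (f z)) 0 r =
      (starRingEnd ℂ) (Real.circleAverage f 0 r) :=
  (Complex.conjCLE.toContinuousLinearMap).circleAverage_comp_comm hf

theorem avg_pow_mul {r : ℝ} (hr : 0 < r) {f : ℂ → ℂ} (hf : DiffContOnCl ℂ f (ball 0 r)) (n : ℕ) :
    Real.circleAverage (fun z => z ^ n * f z) 0 r = if n = 0 then f 0 else 0 := by
  have h1 : DiffContOnCl ℂ (fun z => z ^ n * f z) (ball 0 r) := by
    refine ⟨?_, ?_⟩
    · exact (by fun_prop : DifferentiableOn ℂ (fun z : ℂ => z ^ n) (ball 0 r)).mul hf.1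
    · exact (by fun_prop : ContinuousOn (fun z : ℂ => z ^ n) (closure (ball 0 r))).mul hf.2
  have h2 := DiffContOnCl.circleAverage (c := (0 : ℂ)) (R := r) (by rw [abs_of_pos hr]; exact h1)
  rw [h2]
  split_ifs with h3
  · simp [h3]
  · simp [h3]

theorem avg_conj {r : ℝ} (hr : 0 < r) {f : ℂ → ℂ} (hf : DiffContOnCl ℂ f (ball 0 r)) (n : ℕ) :
    Real.circleAverage (fun z => (z ^ n)⁻¹ * (starRingEnd ℂ) (f z)) 0 r =
      if n = 0 then (starRingEnd ℂ) (f 0) else 0 := by
  have hcl : closure (ball (0 : ℂ) r) = closedBall 0 r := closure_ball _ hr.ne'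
  have hcont : ContinuousOn (fun z : ℂ => z ^ n * f z) (sphere 0 r) := by
    have h1 := hf.2
    rw [hcl] at h1
    exact (by fun_prop : ContinuousOn (fun z : ℂ => z ^ n) (sphere 0 r)).mul
      (h1.mono sphere_subset_closedBall)
  have h1 : Real.circleAverage (fun z => (z ^ n)⁻¹ * (starRingEnd ℂ) (f z)) 0 r =
      Real.circleAverage (fun z => ((r ^ 2 : ℝ) ^ n : ℂ)⁻¹ •
        (starRingEnd ℂ) (z ^ n * f z)) 0 r := by
    apply Real.circleAverage_congr_sphere
    intro z hz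
    rw [abs_of_pos hr] at hz
    have hz0 := ne_zero_of_sphere hr hz
    have hzn : ‖z‖ = r := by simpa using hz
    have h2 : z * (starRingEnd ℂ) z = ((r ^ 2 : ℝ) : ℂ) := by
      rw [Complex.mul_conj, Complex.normSq_eq_norm_sq, hzn]
    have h3 : ((r ^ 2 : ℝ) : ℂ) ^ n ≠ 0 := by
      apply pow_ne_zero
      exact_mod_cast (by positivity : (r ^ 2 : ℝ) ≠ 0)
    have h4 : z ^ n * (starRingEnd ℂ) z ^ n = ((r ^ 2 : ℝ) : ℂ) ^ n := by
      rw [← mul_pow, h2]
    simp only [smul_eq_mul, map_mul, map_pow]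
    rw [inv_mul_eq_iff_eq_mul₀ (pow_ne_zero _ hz0), ← mul_assoc, ← mul_assoc,
      mul_comm (z ^ n), mul_assoc (_⁻¹), h4, inv_mul_cancel₀ h3, one_mul]
  rw [h1, Real.circleAverage_fun_smul, conj_circleAverage (circInt hr.le hcont),
    avg_pow_mul hr hf]
  split_ifs with h3
  · simp [h3]
  · simp

theorem tc_succ {f : ℂ → ℂ} {R : ℝ} (hR : 0 < R) (hf : DifferentiableOn ℂ f (ball 0 R)) (n : ℕ) :
    tc (n + 1) (fun z => z * f z) = tc n f := by
  have hs : closedBall (0 : ℂ) (R / 2) ⊆ ball 0 R := closedBall_subset_ball (by linarith)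
  have hr : 0 < R / 2 := by linarith
  have h1 : DiffContOnCl ℂ f (ball 0 (R / 2)) := DifferentiableOn.diffContOnCl_ball hf hs
  have h2 : DiffContOnCl ℂ (fun z => z * f z) (ball 0 (R / 2)) :=
    DifferentiableOn.diffContOnCl_ball (differentiableOn_id.mul hf) hs
  rw [← tc_circleAverage hr (n + 1) h2, ← tc_circleAverage hr n h1]
  apply Real.circleAverage_congr_sphere
  intro z hz
  rw [abs_of_pos hr] at hz
  have hz0 := ne_zero_of_sphere hr hz
  simp only [smul_eq_mul, pow_succ]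
  field_simp

theorem tc_zero_eq {f : ℂ → ℂ} : tc 0 f = f 0 := by
  simp [tc]

/-- `Re` of averages against the weight `|1 + z|^2`. -/
theorem eq_zero_of_tc {f : ℂ → ℂ} (hf : DifferentiableOn ℂ f (ball 0 1))
    (h : ∀ n, tc n f = 0) {z : ℂ} (hz : z ∈ ball (0 : ℂ) 1) : f z = 0 := by
  have h1 := Complex.hasSum_taylorSeries_on_ball hf hz
  have h2 : (fun n : ℕ => ((n.factorial : ℂ)⁻¹) • (z - 0) ^ n • iteratedDeriv n f 0) =
      fun _ => (0 : ℂ) := by
    ext n
    have h3 := h n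
    rw [tc] at h3
    rw [smul_comm, h3, smul_zero]
  rw [h2] at h1
  exact h1.unique hasSum_zero

end Circ

end Pool.Agent.KS7_39.H540
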