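import Mathlib
import Pool.Agent.KS7_39.Helper540.Holo

set_option autoImplicit false

namespace Pool.Agent.KS7_39.H540

open Metric Set Filter Topology

/-- An injective holomorphic function of one variable has nonvanishing derivative. -/
theorem deriv_ne_zero_of_injOn {f : ℂ → ℂ} {U : Set ℂ} (hU : IsOpen U)
    (hf : DifferentiableOn ℂ f U) (hinj : InjOn f U) {a : ℂ} (ha : a ∈ U) : deriv f a ≠ 0 := by
  intro hd0
  have hUa : U ∈ 𝓝 a := hU.mem_nhds ha
  have hfa : AnalyticAt ℂ f a := hf.analyticAt hUa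
  set F : ℂ → ℂ := fun z => f z - f a with hF
  have hFa : AnalyticAt ℂ F a := hfa.sub analyticAt_const
  have hnt : analyticOrderAt F a ≠ ⊤ := by
    intro h
    rw [analyticOrderAt_eq_top] at h
    obtain ⟨r, hr, hb⟩ := Metric.eventually_nhds_iff_ball.1 (h.and hUa)
    have h1 : a + (r / 2 : ℝ) ∈ ball a r := by
      rw [mem_ball, dist_eq_norm, add_sub_cancel_left, Complex.norm_real, Real.norm_of_nonneg
        (by linarith)]
      linarith
    have h2 := hb _ h1
    have h3 : f (a + (r / 2 : ℝ)) = f a := sub_eq_zero.1 h2.1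
    have h4 := hinj h2.2 ha h3
    have h5 : ((r / 2 : ℝ) : ℂ) = 0 := by linear_combination h4
    have h6 : (r / 2 : ℝ) = 0 := by exact_mod_cast h5
    linarith
  obtain ⟨g, hg, hg0, hgF⟩ := (hFa.analyticOrderAt_ne_top).1 hnt
  set m : ℕ := analyticOrderNatAt F a with hm
  have hm0 : m ≠ 0 := by
    intro h0
    have h1 := hgF.self_of_nhds
    rw [h0] at h1
    simp [hF] at h1
    exact hg0 h1.symm
  have hm1 : m ≠ 1 := by
    intro h1
    rw [h1] at hgF
    have h2 : HasDerivAt F (deriv f a) a := (hfa.differentiableAt.hasDerivAt).sub_const _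
    have h3 : HasDerivAt (fun z => (z - a) ^ 1 • g z) (g a) a := by
      have h4 : HasDerivAt (fun z => (z - a)) 1 a := (hasDerivAt_id a).sub_const a
      have h5 := h4.fun_mul hg.differentiableAt.hasDerivAt
      simpa using h5
    have h6 := h2.congr_of_eventuallyEq (hgF.symm : _ =ᶠ[𝓝 a] F)
    have h7 := h6.unique h3
    rw [hd0] at h7
    exact hg0 h7.symm
  have hm2 : 1 < m := by omega
  -- the local root
  set u : ℂ → ℂ := fun z => Complex.exp (Complex.log (g z / g a) / m) with hu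
  have hmC : (m : ℂ) ≠ 0 := by exact_mod_cast hm0
  have hquot : AnalyticAt ℂ (fun z => g z / g a) a := hg.div analyticAt_const hg0
  have hslit : (fun z => g z / g a) a ∈ Complex.slitPlane := by
    simp only [div_self hg0]
    exact Complex.one_mem_slitPlane
  have hua : AnalyticAt ℂ u a := by
    apply AnalyticAt.cexp
    exact (hquot.clog hslit).div analyticAt_const hmC
  have hu1 : u a = 1 := by simp [hu, div_self hg0]
  set h : ℂ → ℂ := fun z => (z - a) * u z with hh
  have hha : AnalyticAt ℂ h a := (analyticAt_id.sub analyticAt_const).mul hua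
  have hh0 : h a = 0 := by simp [hh]
  have hder : HasStrictDerivAt h 1 a := by
    have h1 : HasStrictDerivAt h (deriv h a) a := hha.hasStrictDerivAt
    have h2 : HasDerivAt h 1 a := by
      have h4 : HasDerivAt (fun z => (z - a)) 1 a := (hasDerivAt_id a).sub_const a
      have h5 := h4.fun_mul hua.differentiableAt.hasDerivAt
      rw [sub_self, zero_mul, add_zero, one_mul, hu1] at h5
      exact h5
    rwa [h2.deriv] at h1
  have hpow : ∀ᶠ z in 𝓝 a, F z = g a * h z ^ m := by
    have hgne : ∀ᶠ z in 𝓝 a, g z ≠ 0 := hg.continuousAt.eventually_ne hg0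
    filter_upwards [hgF, hgne] with z hz1 hz2
    rw [hz1, hh, mul_pow, hu, ← Complex.exp_nat_mul]
    have h1 : (m : ℂ) * (Complex.log (g z / g a) / m) = Complex.log (g z / g a) := by
      field_simp
    rw [h1, Complex.exp_log (div_ne_zero hz2 hg0), smul_eq_mul]
    field_simp
  have hmap := hder.map_nhds_eq one_ne_zero
  rw [hh0] at hmap
  have hV : h '' {z | z ∈ U ∧ F z = g a * h z ^ m} ∈ 𝓝 (0 : ℂ) := by
    rw [← hmap]
    exact image_mem_map (by filter_upwards [hUa, hpow] with z h1 h2 using ⟨h1, h2⟩)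
  obtain ⟨ε, hε, hb⟩ := Metric.mem_nhds_iff.1 hV
  set ω : ℂ := Complex.exp (2 * Real.pi * Complex.I / m) with hω
  have hprim : IsPrimitiveRoot ω m := Complex.isPrimitiveRoot_exp m hm0
  have hω1 : ω ≠ 1 := hprim.ne_one hm2
  have hωn : ‖ω‖ = 1 := hprim.norm'_eq_one hm0
  have hw : ‖((ε / 2 : ℝ) : ℂ)‖ < ε := by
    rw [Complex.norm_real, Real.norm_of_nonneg (by linarith)]
    linarith
  obtain ⟨z1, ⟨hz1U, hz1F⟩, hz1⟩ := hb (show ((ε / 2 : ℝ) : ℂ) ∈ ball (0 : ℂ) ε by
    rw [mem_ball_zero_iff]; exact hw)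
  obtain ⟨z2, ⟨hz2U, hz2F⟩, hz2⟩ := hb (show ω * ((ε / 2 : ℝ) : ℂ) ∈ ball (0 : ℂ) ε by
    rw [mem_ball_zero_iff, norm_mul, hωn, one_mul]; exact hw)
  have hFe : F z1 = F z2 := by
    rw [hz1F, hz2F, hz1, hz2, mul_pow, hprim.pow_eq_one, one_mul]
  have hfe : f z1 = f z2 := by simpa [hF] using hFe
  have hze := hinj hz1U hz2U hfe
  rw [hze, hz2] at hz1
  have hne : ((ε / 2 : ℝ) : ℂ) ≠ 0 := by
    exact_mod_cast (by positivity : (ε / 2 : ℝ) ≠ 0)
  apply hω1
  exact mul_right_cancel₀ hne (by rw [hz1, one_mul])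

section Multi

variable {E F : Type*} [NormedAddCommGroup E] [NormedSpace ℂ E] [NormedAddCommGroup F]
  [NormedSpace ℂ F]

theorem line_hasDerivAt (x e : E) (t : ℂ) : HasDerivAt (fun s : ℂ => x + s • e) e t := by
  have h := ((hasDerivAt_id t).smul_const e).const_add x
  simpa using h

theorem line_continuous (x e : E) : Continuous (fun s : ℂ => x + s • e) := by fun_prop

theorem line_diff {J : E → ℂ} {U : Set E} (hJ : DifferentiableOn ℂ J U)
    (x e : E) : DifferentiableOn ℂ (fun t : ℂ => J (x + t • e)) {t | x + t • e ∈ U} := by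
  intro t ht
  exact (hJ _ ht).comp t ((line_hasDerivAt x e t).differentiableAt.differentiableWithinAt)
    (fun s hs => hs)

/-- Zeros along a direction persist under small perturbation of the base point. -/
theorem exists_zero_near {J : E → ℂ} {U : Set E} (hU : IsOpen U) (hJ : DifferentiableOn ℂ J U)
    {x0 e : E} (hx0 : x0 ∈ U) (h0 : J x0 = 0)
    (hne : ¬ ∀ᶠ t : ℂ in 𝓝 0, J (x0 + t • e) = 0) {ρ : ℝ} (hρ : 0 < ρ) :
    ∀ᶠ x in 𝓝 x0, ∃ t : ℂ, ‖t‖ ≤ ρ ∧ x + t • e ∈ U ∧ J (x + t • e) = 0 := by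
  have hW : IsOpen {t : ℂ | x0 + t • e ∈ U} := hU.preimage (line_continuous x0 e)
  have h0W : (0 : ℂ) ∈ {t : ℂ | x0 + t • e ∈ U} := by simpa using hx0
  have hg : AnalyticAt ℂ (fun t : ℂ => J (x0 + t • e)) 0 :=
    (line_diff hJ x0 e).analyticAt (hW.mem_nhds h0W)
  have h1 := hg.eventually_eq_zero_or_eventually_ne_zero.resolve_left hne
  rw [eventually_nhdsWithin_iff] at h1
  obtain ⟨r', hr', hb⟩ := Metric.eventually_nhds_iff_ball.1 (h1.and (hW.mem_nhds h0W))
  set r : ℝ := min (r' / 2) ρ with hr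
  have hr0 : 0 < r := lt_min (by linarith) hρ
  have hrr' : r < r' := (min_le_left _ _).trans_lt (by linarith)
  have hrρ : r ≤ ρ := min_le_right _ _
  have hU' : ∀ t ∈ closedBall (0 : ℂ) r, x0 + t • e ∈ U := fun t ht =>
    (hb t (closedBall_subset_ball hrr' ht)).2
  have hJc : ContinuousOn J U := hJ.continuousOn
  have hsph : ∀ t ∈ sphere (0 : ℂ) r, J (x0 + t • e) ≠ 0 := by
    intro t ht
    have h2 : t ≠ 0 := by
      rintro rfl
      rw [mem_sphere, dist_self] at ht
      exact hr0.ne ht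
    exact (hb t (closedBall_subset_ball hrr' (sphere_subset_closedBall ht))).1 h2
  have hcont0 : ContinuousOn (fun t : ℂ => ‖J (x0 + t • e)‖) (closedBall 0 r) := by
    apply ContinuousOn.norm
    exact hJc.comp (line_continuous x0 e).continuousOn hU'
  obtain ⟨t0, ht0, hmin⟩ := (isCompact_sphere (0 : ℂ) r).exists_isMinOn
    (NormedSpace.sphere_nonempty.2 hr0.le) (hcont0.mono sphere_subset_closedBall)
  set ε : ℝ := ‖J (x0 + t0 • e)‖ with hε
  have hε0 : 0 < ε := norm_pos_iff.2 (hsph t0 ht0)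
  have key : ∀ᶠ x in 𝓝 x0, ∀ t ∈ closedBall (0 : ℂ) r,
      x + t • e ∈ U ∧ ‖J (x + t • e) - J (x0 + t • e)‖ < ε / 4 := by
    apply (isCompact_closedBall (0 : ℂ) r).eventually_forall_of_forall_eventually
      (P := fun x t => x + t • e ∈ U ∧ ‖J (x + t • e) - J (x0 + t • e)‖ < ε / 4)
    intro t ht
    have hUt : U ∈ 𝓝 (x0 + t • e) := hU.mem_nhds (hU' t ht)
    have hc1 : ContinuousAt (fun z : E × ℂ => z.1 + z.2 • e) (x0, t) := by fun_prop
    have hc2 : ContinuousAt (fun z : E × ℂ => x0 + z.2 • e) (x0, t) := by fun_prop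
    have hJt : ContinuousAt J (x0 + t • e) := hJc.continuousAt hUt
    have hc3 : ContinuousAt (fun z : E × ℂ => J (z.1 + z.2 • e)) (x0, t) :=
      ContinuousAt.comp (f := fun z : E × ℂ => z.1 + z.2 • e) hJt hc1
    have hc4 : ContinuousAt (fun z : E × ℂ => J (x0 + z.2 • e)) (x0, t) :=
      ContinuousAt.comp (f := fun z : E × ℂ => x0 + z.2 • e) hJt hc2
    have hc5 := (hc3.sub hc4).norm
    refine (hc1.eventually_mem hUt).and ?_
    have : ‖J ((x0, t).1 + (x0, t).2 • e) - J (x0 + (x0, t).2 • e)‖ < ε / 4 := by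
      simp only [sub_self, norm_zero]
      positivity
    exact hc5.eventually_lt continuousAt_const this
  filter_upwards [key] with x hx
  by_contra hcon
  push Not at hcon
  have hne' : ∀ t ∈ closedBall (0 : ℂ) r, J (x + t • e) ≠ 0 := fun t ht =>
    hcon t ((mem_closedBall_zero_iff.1 ht).trans hrρ) (hx t ht).1
  have hdc : DiffContOnCl ℂ (fun t : ℂ => J (x + t • e)) (ball 0 r) := by
    apply DifferentiableOn.diffContOnCl_ball (U := {t : ℂ | x + t • e ∈ U}) (line_diff hJ x e)
    exact fun t ht => (hx t ht).1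
  have hcl : closure (ball (0 : ℂ) r) = closedBall 0 r := closure_ball _ hr0.ne'
  have hinv := hdc.inv (fun t ht => hne' t (by rwa [hcl] at ht))
  have hbd : ∀ t ∈ frontier (ball (0 : ℂ) r), ‖(fun t : ℂ => J (x + t • e))⁻¹ t‖ ≤
      (3 * ε / 4)⁻¹ := by
    intro t ht
    rw [frontier_ball _ hr0.ne'] at ht
    rw [Pi.inv_apply, norm_inv]
    apply inv_anti₀ (by positivity)
    have h2 : ε ≤ ‖J (x0 + t • e)‖ := hmin ht
    have h3 := (hx t (sphere_subset_closedBall ht)).2
    have h4 := norm_sub_norm_le (J (x0 + t • e)) (J (x + t • e))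
    rw [norm_sub_rev] at h4
    linarith
  have h5 := Complex.norm_le_of_forall_mem_frontier_norm_le isBounded_ball hinv hbd
    (subset_closure (mem_ball_self hr0))
  rw [Pi.inv_apply, norm_inv] at h5
  have h6 := (hx 0 (mem_closedBall_self hr0.le)).2
  simp only [zero_smul, add_zero, h0, sub_zero] at h5 h6
  have h7 : 0 < ‖J x‖ := by
    have := hne' 0 (mem_closedBall_self hr0.le)
    simp only [zero_smul, add_zero] at this
    exact norm_pos_iff.2 this
  rw [inv_le_inv₀ h7 (by positivity)] at h5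
  linarith

/-- Iterated derivatives in a fixed direction. -/
noncomputable def dirD (J : E → ℂ) (e : E) : ℕ → E → ℂ
  | 0 => J
  | (j + 1) => fun x => fderiv ℂ (dirD J e j) x e

theorem dirD_diff {J : E → ℂ} {U : Set E} (hU : IsOpen U) (hJ : DifferentiableOn ℂ J U) (e : E)
    (j : ℕ) : DifferentiableOn ℂ (dirD J e j) U := by
  induction j with
  | zero => exact hJ
  | succ j ih => exact differentiableOn_fderiv_apply hU ih e

theorem iteratedDeriv_dirD {J : E → ℂ} {U : Set E} (hU : IsOpen U) (hJ : DifferentiableOn ℂ J U)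
    (x e : E) (j : ℕ) : ∀ t : ℂ, x + t • e ∈ U →
      iteratedDeriv j (fun t : ℂ => J (x + t • e)) t = dirD J e j (x + t • e) := by
  induction j with
  | zero => intro t _; simp [dirD]
  | succ j ih =>
    intro t ht
    have hW : IsOpen {t : ℂ | x + t • e ∈ U} := hU.preimage (line_continuous x e)
    have h1 : iteratedDeriv j (fun t : ℂ => J (x + t • e)) =ᶠ[𝓝 t]
        fun t => dirD J e j (x + t • e) := by
      filter_upwards [hW.mem_nhds ht] with s hs using ih s hs
    rw [iteratedDeriv_succ, h1.deriv_eq]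
    have h2 : HasFDerivAt (dirD J e j) (fderiv ℂ (dirD J e j) (x + t • e)) (x + t • e) :=
      ((dirD_diff hU hJ e j).differentiableAt (hU.mem_nhds ht)).hasFDerivAt
    exact (h2.comp_hasDerivAt t (line_hasDerivAt x e t)).deriv

theorem dirD_all_zero {J : E → ℂ} {U : Set E} (hU : IsOpen U) (hJ : DifferentiableOn ℂ J U)
    {x e : E} (hx : x ∈ U) (h : ∀ j, dirD J e j x = 0) : ∀ᶠ t : ℂ in 𝓝 0, J (x + t • e) = 0 := by
  have hW : IsOpen {t : ℂ | x + t • e ∈ U} := hU.preimage (line_continuous x e)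
  have h0W : (0 : ℂ) ∈ {t : ℂ | x + t • e ∈ U} := by simpa using hx
  obtain ⟨r, hr, hb⟩ := Metric.isOpen_iff.1 hW 0 h0W
  filter_upwards [ball_mem_nhds (0 : ℂ) hr] with t ht
  have h1 := Complex.hasSum_taylorSeries_on_ball ((line_diff hJ x e).mono hb) ht
  have h2 : ∀ n : ℕ, iteratedDeriv n (fun t : ℂ => J (x + t • e)) 0 = 0 := by
    intro n
    rw [iteratedDeriv_dirD hU hJ x e n 0 h0W]
    simpa using h n
  simp only [h2, smul_zero] at h1
  exact h1.unique hasSum_zero

theorem dirD_zero_of_zero {J : E → ℂ} {U : Set E} (hU : IsOpen U) (hJ : DifferentiableOn ℂ J U)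
    {x e : E} (hx : x ∈ U) (h : ∀ᶠ t : ℂ in 𝓝 0, J (x + t • e) = 0) (j : ℕ) :
    dirD J e j x = 0 := by
  have h0W : x + (0 : ℂ) • e ∈ U := by simpa using hx
  have h1 := iteratedDeriv_dirD hU hJ x e j 0 h0W
  have h2 : (fun t : ℂ => J (x + t • e)) =ᶠ[𝓝 0] fun _ => (0 : ℂ) := h
  have h3 : iteratedDeriv j (fun t : ℂ => J (x + t • e)) 0 = iteratedDeriv j (fun _ : ℂ => (0 : ℂ)) 0 :=
    h2.iteratedDeriv_eq j
  rw [h3] at h1
  simp only [zero_smul, add_zero] at h1
  rw [← h1]
  simp

/-- The core of the proof: a holomorphic function `J` whose zeros are critical points of the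
injective map `f` cannot vanish to finite order along a line. -/
theorem core_false [FiniteDimensional ℂ E] {f : E → F} {J : E → ℂ} {U : Set E} (hU : IsOpen U)
    (hf : DifferentiableOn ℂ f U) (hinj : InjOn f U) (hJ : DifferentiableOn ℂ J U)
    (hJf : ∀ x ∈ U, J x = 0 → fderiv ℂ f x = 0)
    {a e e' : E} (ha : a ∈ U) (h0 : J a = 0) (hne : ¬ ∀ᶠ t : ℂ in 𝓝 0, J (a + t • e) = 0)
    (he' : ∀ c : ℂ, e' ≠ c • e) : False := by
  classical
  have hex : ∃ m, ∃ x ∈ U, J x = 0 ∧ dirD J e m x ≠ 0 := by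
    by_contra hcon
    push Not at hcon
    exact hne (dirD_all_zero hU hJ ha (fun j => hcon j a ha h0))
  obtain ⟨x0, hx0, hx00, hx0m⟩ := Nat.find_spec hex
  have hmin : ∀ j < Nat.find hex, ∀ x ∈ U, J x = 0 → dirD J e j x = 0 := by
    intro j hj x hx hx0
    by_contra hcon
    exact Nat.find_min hex hj ⟨x, hx, hx0, hcon⟩
  have hm0 : Nat.find hex ≠ 0 := by
    intro h
    rw [h] at hx0m
    exact hx0m hx00
  obtain ⟨k, hk⟩ := Nat.exists_eq_succ_of_ne_zero hm0
  rw [hk] at hx0m hmin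
  have hGz : ∀ x ∈ U, J x = 0 → dirD J e k x = 0 := hmin k (Nat.lt_succ_self k)
  have hne0 : ¬ ∀ᶠ t : ℂ in 𝓝 0, J (x0 + t • e) = 0 := fun h =>
    hx0m (dirD_zero_of_zero hU hJ hx0 h _)
  set G : E → ℂ := dirD J e k with hG
  have hGd : DifferentiableOn ℂ G U := dirD_diff hU hJ e k
  set ψ : E →L[ℂ] ℂ := fderiv ℂ G x0 with hψ
  have hψe : ψ e ≠ 0 := hx0m
  have he : e ≠ 0 := by
    rintro rfl
    exact hψe (map_zero _)
  have hen : 0 < ‖e‖ := norm_pos_iff.2 he
  have hψn : 0 < ‖ψ e‖ := norm_pos_iff.2 hψe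
  have hstrict : HasStrictFDerivAt G ψ x0 := by
    have h1 : ContDiffAt ℂ (1 : ℕ) G x0 :=
      (contDiffOn_of_differentiableOn hU hGd 1).contDiffAt (hU.mem_nhds hx0)
    exact h1.hasStrictFDerivAt (by simp)
  set c : ℝ := ‖ψ e‖ / (2 * ‖e‖) with hc
  have hc0 : 0 < c := by positivity
  have hbound := hstrict.isLittleO.bound hc0
  rw [Metric.eventually_nhds_iff_ball] at hbound
  obtain ⟨δ1, hδ1, hb1⟩ := hbound
  obtain ⟨δ2, hδ2, hb2⟩ := Metric.isOpen_iff.1 hU x0 hx0
  set δ : ℝ := min δ1 δ2 with hδ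
  have hδ0 : 0 < δ := lt_min hδ1 hδ2
  have hstr : ∀ p ∈ ball x0 δ, ∀ q ∈ ball x0 δ, ‖G p - G q - ψ (p - q)‖ ≤ c * ‖p - q‖ := by
    intro p hp q hq
    have := hb1 (p, q) (by
      rw [← ball_prod_same]
      exact ⟨ball_subset_ball (min_le_left _ _) hp, ball_subset_ball (min_le_left _ _) hq⟩)
    simpa using this
  have hsubU : ball x0 δ ⊆ U := (ball_subset_ball (min_le_right _ _)).trans hb2
  -- zeros near x0
  have hρ : 0 < δ / (2 * ‖e‖) := by positivity
  have hz := exists_zero_near hU hJ hx0 hx00 hne0 hρ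
  have hzc : ∀ᶠ μ : ℂ in 𝓝 0, ∃ t : ℂ, ‖t‖ ≤ δ / (2 * ‖e‖) ∧ x0 + μ • e' + t • e ∈ U ∧
      J (x0 + μ • e' + t • e) = 0 := by
    have hcont : ContinuousAt (fun μ : ℂ => x0 + μ • e') 0 := by fun_prop
    have h1 : Tendsto (fun μ : ℂ => x0 + μ • e') (𝓝 0) (𝓝 x0) := by
      have := hcont.tendsto
      simpa using this
    exact h1.eventually hz
  have hsmall : ∀ᶠ μ : ℂ in 𝓝 0, ‖μ • e'‖ < δ / 2 := by
    have hcont : ContinuousAt (fun μ : ℂ => ‖μ • e'‖) 0 := by fun_prop
    exact hcont.eventually_lt continuousAt_const (by simpa using half_pos hδ0)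
  obtain ⟨σ, hσ, hb⟩ := Metric.eventually_nhds_iff_ball.1 (hzc.and hsmall)
  have hch : ∀ μ : ℂ, ∃ t : ℂ, μ ∈ ball (0 : ℂ) σ → (‖t‖ ≤ δ / (2 * ‖e‖) ∧
      x0 + μ • e' + t • e ∈ U ∧ J (x0 + μ • e' + t • e) = 0) := by
    intro μ
    by_cases hμ : μ ∈ ball (0 : ℂ) σ
    · obtain ⟨t, ht⟩ := (hb μ hμ).1
      exact ⟨t, fun _ => ht⟩
    · exact ⟨0, fun h => absurd h hμ⟩
  choose lam hlam using hch
  set X : ℂ → E := fun μ => x0 + μ • e' + lam μ • e with hX
  have hXU : ∀ μ ∈ ball (0 : ℂ) σ, X μ ∈ U := fun μ hμ => (hlam μ hμ).2.1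
  have hXJ : ∀ μ ∈ ball (0 : ℂ) σ, J (X μ) = 0 := fun μ hμ => (hlam μ hμ).2.2
  have hXb : ∀ μ ∈ ball (0 : ℂ) σ, X μ ∈ ball x0 δ := by
    intro μ hμ
    rw [mem_ball, dist_eq_norm]
    have e1 : X μ - x0 = μ • e' + lam μ • e := by
      show x0 + μ • e' + lam μ • e - x0 = _
      module
    rw [e1]
    have h1 := (hb μ hμ).2
    have h2 : ‖lam μ • e‖ ≤ δ / 2 := by
      rw [norm_smul]
      calc ‖lam μ‖ * ‖e‖ ≤ δ / (2 * ‖e‖) * ‖e‖ := by
            gcongr
            exact (hlam μ hμ).1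
        _ = δ / 2 := by field_simp
    calc ‖μ • e' + lam μ • e‖ ≤ ‖μ • e'‖ + ‖lam μ • e‖ := norm_add_le _ _
      _ < δ := by linarith
  set C : ℝ := (‖ψ e'‖ + c * ‖e'‖) / (‖ψ e‖ / 2) with hC
  have hC0 : 0 ≤ C := by positivity
  have hlip : ∀ μ ∈ ball (0 : ℂ) σ, ∀ ν ∈ ball (0 : ℂ) σ, ‖X μ - X ν‖ ≤
      (‖e'‖ + C * ‖e‖) * ‖μ - ν‖ := by
    intro μ hμ ν hν
    have h1 := hstr _ (hXb μ hμ) _ (hXb ν hν)
    rw [hGz _ (hXU μ hμ) (hXJ μ hμ), hGz _ (hXU ν hν) (hXJ ν hν), sub_zero, zero_sub,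
      norm_neg] at h1
    have e1 : X μ - X ν = (μ - ν) • e' + (lam μ - lam ν) • e := by
      show (x0 + μ • e' + lam μ • e) - (x0 + ν • e' + lam ν • e) = _
      module
    have h2 : ‖X μ - X ν‖ ≤ ‖μ - ν‖ * ‖e'‖ + ‖lam μ - lam ν‖ * ‖e‖ := by
      rw [e1]
      refine (norm_add_le _ _).trans ?_
      rw [norm_smul, norm_smul]
    rw [e1, map_add, map_smul, map_smul, smul_eq_mul, smul_eq_mul, ← e1] at h1
    have h3 : ‖lam μ - lam ν‖ * ‖ψ e‖ ≤ ‖μ - ν‖ * ‖ψ e'‖ + c * ‖X μ - X ν‖ := by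
      have h4 := norm_sub_norm_le ((lam μ - lam ν) * ψ e) (-((μ - ν) * ψ e'))
      rw [norm_neg, sub_neg_eq_add, norm_mul, norm_mul, add_comm ((lam μ - lam ν) * ψ e)] at h4
      linarith
    have h5 : c * (‖lam μ - lam ν‖ * ‖e‖) = ‖lam μ - lam ν‖ * (‖ψ e‖ / 2) := by
      rw [hc]; field_simp
    have h6 : ‖lam μ - lam ν‖ * (‖ψ e‖ / 2) ≤ ‖μ - ν‖ * (‖ψ e'‖ + c * ‖e'‖) := by
      have h7 : c * ‖X μ - X ν‖ ≤ c * (‖μ - ν‖ * ‖e'‖ + ‖lam μ - lam ν‖ * ‖e‖) :=
        mul_le_mul_of_nonneg_left h2 hc0.le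
      nlinarith
    have h8 : ‖lam μ - lam ν‖ ≤ C * ‖μ - ν‖ := by
      rw [hC, div_mul_eq_mul_div, le_div_iff₀ (by positivity)]
      linarith
    calc ‖X μ - X ν‖ ≤ ‖μ - ν‖ * ‖e'‖ + ‖lam μ - lam ν‖ * ‖e‖ := h2
      _ ≤ ‖μ - ν‖ * ‖e'‖ + (C * ‖μ - ν‖) * ‖e‖ := by gcongr
      _ = _ := by ring
  have hder : ∀ μ ∈ ball (0 : ℂ) σ, HasDerivAt (fun μ => f (X μ)) 0 μ := by
    intro μ hμ
    have h1 : HasFDerivAt f (0 : E →L[ℂ] F) (X μ) := by
      have := (hf.differentiableAt (hU.mem_nhds (hXU μ hμ))).hasFDerivAt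
      rwa [hJf _ (hXU μ hμ) (hXJ μ hμ)] at this
    have hXO : (fun ν => X ν - X μ) =O[𝓝 μ] fun ν => ν - μ := by
      apply Asymptotics.IsBigO.of_bound (‖e'‖ + C * ‖e‖)
      filter_upwards [isOpen_ball.mem_nhds hμ] with ν hν using hlip ν hν μ hμ
    have hXc : Tendsto X (𝓝 μ) (𝓝 (X μ)) := by
      rw [← tendsto_sub_nhds_zero_iff]
      refine hXO.trans_tendsto ?_
      have : Tendsto (fun ν : ℂ => ν - μ) (𝓝 μ) (𝓝 (μ - μ)) := tendsto_id.sub_const μ
      rwa [sub_self] at this
    have h2 : (fun ν => f (X ν) - f (X μ)) =o[𝓝 μ] fun ν => X ν - X μ := by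
      have := (hasFDerivAt_iff_isLittleO.1 h1).comp_tendsto hXc
      simpa [Function.comp_def] using this
    have h3 := h2.trans_isBigO hXO
    rw [hasDerivAt_iff_isLittleO]
    simpa using h3
  have hconst : f (X ((σ / 2 : ℝ) : ℂ)) = f (X 0) := by
    have hmem : ((σ / 2 : ℝ) : ℂ) ∈ ball (0 : ℂ) σ := by
      rw [mem_ball_zero_iff, Complex.norm_real, Real.norm_of_nonneg (by positivity)]
      linarith
    exact isOpen_ball.is_const_of_deriv_eq_zero (convex_ball (0 : ℂ) σ).isPreconnected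
      (fun μ hμ => (hder μ hμ).differentiableAt.differentiableWithinAt)
      (fun μ hμ => (hder μ hμ).deriv) hmem (mem_ball_self hσ)
  have hmem : ((σ / 2 : ℝ) : ℂ) ∈ ball (0 : ℂ) σ := by
    rw [mem_ball_zero_iff, Complex.norm_real, Real.norm_of_nonneg (by positivity)]
    linarith
  have hXe := hinj (hXU _ hmem) (hXU 0 (mem_ball_self hσ)) hconst
  set s : ℂ := ((σ / 2 : ℝ) : ℂ) with hs
  have hs0 : s ≠ 0 := by
    rw [hs]
    exact_mod_cast (by positivity : (σ / 2 : ℝ) ≠ 0)
  have h9 : s • e' = (lam 0 - lam s) • e := by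
    have h10 : x0 + s • e' + lam s • e = x0 + (0 : ℂ) • e' + lam 0 • e := hXe
    rw [zero_smul, add_zero, add_assoc] at h10
    have h11 := add_left_cancel h10
    rw [sub_smul, ← h11]
    abel
  apply he' (s⁻¹ * (lam 0 - lam s))
  rw [mul_smul, ← h9, smul_smul, inv_mul_cancel₀ hs0, one_smul]

theorem exists_param [FiniteDimensional ℂ E] {φ : E → ℂ} {a : E} (hφ : ContDiffAt ℂ 1 φ a)
    (h : fderiv ℂ φ a ≠ 0) :
    ∃ ψ : (fderiv ℂ φ a).ker → E, ψ 0 = a ∧
      HasStrictFDerivAt ψ (fderiv ℂ φ a).ker.subtypeL 0 ∧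
      (∀ᶠ y in 𝓝 (0 : (fderiv ℂ φ a).ker), DifferentiableAt ℂ ψ y) ∧
      (∀ᶠ y in 𝓝 (0 : (fderiv ℂ φ a).ker), φ (ψ y) = φ a) ∧
      ∃ V ∈ 𝓝 (0 : (fderiv ℂ φ a).ker), InjOn ψ V := by
  have : CompleteSpace E := FiniteDimensional.complete ℂ E
  have hs : HasStrictFDerivAt φ (fderiv ℂ φ a) a := hφ.hasStrictFDerivAt (by simp)
  have hr : (fderiv ℂ φ a).range = ⊤ := by
    apply Module.Dual.range_eq_top_of_ne_zero
    intro h0
    apply h
    ext x
    exact LinearMap.congr_fun h0 x
  have hker : (fderiv ℂ φ a).ker.ClosedComplemented :=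
    (fderiv ℂ φ a).ker_closedComplemented_of_finiteDimensional_range
  set D := HasStrictFDerivAt.implicitFunctionDataOfComplemented φ (fderiv ℂ φ a) hs hr hker with hD
  have hpt : D.pt = a := rfl
  have hl : D.leftFun = φ := rfl
  have hr0 : D.rightFun D.pt = 0 := by
    show Classical.choose hker (a - a) = 0
    rw [sub_self, map_zero]
  have hpf : D.prodFun D.pt = (φ a, 0) := by
    rw [D.prodFun_apply, hr0]; rfl
  have hinj : Continuous (fun y : (fderiv ℂ φ a).ker => (φ a, y)) := by fun_prop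
  have htend : Tendsto (fun y : (fderiv ℂ φ a).ker => (φ a, y)) (𝓝 0) (𝓝 (φ a, 0)) :=
    hinj.tendsto 0
  refine ⟨D.implicitFunction (φ a), ?_, ?_, ?_, ?_, ?_⟩
  · have := D.implicitFunction_apply_image.self_of_nhds
    rw [hr0] at this
    exact this
  · exact hs.to_implicitFunctionOfComplemented hr hker
  · have h1 : ContDiffAt ℂ 1 D.implicitFunction.uncurry (D.prodFun D.pt) := by
      apply D.contDiffAt_implicitFunction (n := 1)
      · exact hφ
      · show ContDiffAt ℂ 1 (fun x => Classical.choose hker (x - a)) a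
        fun_prop
      · simp
    rw [hpf] at h1
    have h2 : ∀ᶠ p in 𝓝 ((φ a, 0) : ℂ × (fderiv ℂ φ a).ker),
        DifferentiableAt ℂ D.implicitFunction.uncurry p := by
      have := h1.eventually (by simp)
      filter_upwards [this] with p hp using hp.differentiableAt (by simp)
    filter_upwards [htend.eventually h2] with y hy
    have h3 : DifferentiableAt ℂ (fun y : (fderiv ℂ φ a).ker => (φ a, y)) y := by fun_prop
    exact DifferentiableAt.comp (f := fun y : (fderiv ℂ φ a).ker => (φ a, y)) y hy h3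
  · have h1 := D.leftFun_implicitFunction
    rw [hpf] at h1
    exact htend.eventually h1
  · have h1 := D.rightFun_implicitFunction
    rw [hpf] at h1
    refine ⟨_, htend.eventually h1, ?_⟩
    intro y hy z hz hyz
    have h2 : D.rightFun (D.implicitFunction (φ a) y) = y := hy
    have h3 : D.rightFun (D.implicitFunction (φ a) z) = z := hz
    rw [← h2, hyz, h3]

end Multi

section Osgood

open Module

/-- The inductive step of Osgood's theorem away from totally critical points. -/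
theorem osgood_step {k : ℕ} (ih : ∀ (E F : Type) [NormedAddCommGroup E] [NormedSpace ℂ E]
    [FiniteDimensional ℂ E] [NormedAddCommGroup F] [NormedSpace ℂ F] [FiniteDimensional ℂ F],
    finrank ℂ E = k → finrank ℂ F = k → ∀ (U : Set E), IsOpen U → ∀ f : E → F,
    DifferentiableOn ℂ f U → InjOn f U → ∀ a ∈ U, Function.Injective (fderiv ℂ f a))
    {E F : Type} [NormedAddCommGroup E] [NormedSpace ℂ E]
    [FiniteDimensional ℂ E] [NormedAddCommGroup F] [NormedSpace ℂ F] [FiniteDimensional ℂ F]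
    (hE : finrank ℂ E = k + 1) (hF : finrank ℂ F = k + 1) {U : Set E} (hU : IsOpen U) {f : E → F}
    (hf : DifferentiableOn ℂ f U) (hinj : InjOn f U) {a : E} (ha : a ∈ U)
    (hne : fderiv ℂ f a ≠ 0) : Function.Injective (fderiv ℂ f a) := by
  obtain ⟨x0, hx0⟩ : ∃ x, fderiv ℂ f a x ≠ 0 := by
    by_contra hcon
    push Not at hcon
    exact hne (ContinuousLinearMap.ext hcon)
  obtain ⟨l, hl⟩ := SeparatingDual.exists_ne_zero (R := ℂ) hx0
  have hfa : HasFDerivAt f (fderiv ℂ f a) a := (hf.differentiableAt (hU.mem_nhds ha)).hasFDerivAt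
  have hφ : HasFDerivAt (fun x => l (f x)) (l.comp (fderiv ℂ f a)) a := l.hasFDerivAt.comp a hfa
  have hφne : fderiv ℂ (fun x => l (f x)) a ≠ 0 := by
    rw [hφ.fderiv]
    intro h0
    apply hl
    have := congrArg (fun T : E →L[ℂ] ℂ => T x0) h0
    simpa using this
  have hcd : ContDiffAt ℂ 1 (fun x => l (f x)) a := by
    have h1 : ContDiffAt ℂ (1 : ℕ) f a :=
      (contDiffOn_of_differentiableOn hU hf 1).contDiffAt (hU.mem_nhds ha)
    exact l.contDiff.contDiffAt.comp a h1
  obtain ⟨ψ, hψ0, hψs, hψd, hψφ, V, hV, hVinj⟩ := exists_param hcd hφne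
  have hkerE : finrank ℂ (fderiv ℂ (fun x => l (f x)) a).ker = k := by
    have h1 : ((fderiv ℂ (fun x => l (f x)) a : E →L[ℂ] ℂ) : E →ₗ[ℂ] ℂ) ≠ 0 := by
      intro h0
      apply hφne
      ext x
      exact LinearMap.congr_fun h0 x
    have h2 := Module.Dual.finrank_ker_add_one_of_ne_zero (K := ℂ) (V₁ := E) h1
    rw [hE] at h2
    exact Nat.succ_injective h2
  have hlne : (l : F →ₗ[ℂ] ℂ) ≠ 0 := by
    intro h0
    apply hl
    exact LinearMap.congr_fun h0 _
  have hkerF : finrank ℂ l.ker = k := by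
    have h2 := Module.Dual.finrank_ker_add_one_of_ne_zero (K := ℂ) (V₁ := F) hlne
    rw [hF] at h2
    exact Nat.succ_injective h2
  obtain ⟨p, hp⟩ : l.ker.ClosedComplemented := l.ker_closedComplemented_of_finiteDimensional_range
  have hψc : Tendsto ψ (𝓝 0) (𝓝 a) := by
    have := hψs.hasFDerivAt.continuousAt.tendsto
    rwa [hψ0] at this
  obtain ⟨r, hr, hb⟩ := Metric.eventually_nhds_iff_ball.1
    (((hψd.and hψφ).and hV).and (hψc.eventually (hU.mem_nhds ha)))
  have hg : ∀ y ∈ ball (0 : (fderiv ℂ (fun x => l (f x)) a).ker) r,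
      ((p (f (ψ y) - f a) : l.ker) : F) = f (ψ y) - f a := by
    intro y hy
    have h1 : l (f (ψ y)) = l (f a) := (hb y hy).1.1.2
    have h2 : f (ψ y) - f a ∈ l.ker := by
      show l (f (ψ y) - f a) = 0
      rw [map_sub, h1, sub_self]
    exact congrArg Subtype.val (hp ⟨_, h2⟩)
  have hinjg := ih (fderiv ℂ (fun x => l (f x)) a).ker l.ker hkerE hkerF (ball 0 r) isOpen_ball
    (fun y => p (f (ψ y) - f a)) (by
      intro y hy
      apply DifferentiableAt.differentiableWithinAt
      have h1 : DifferentiableAt ℂ ψ y := (hb y hy).1.1.1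
      have h2 : DifferentiableAt ℂ f (ψ y) := hf.differentiableAt (hU.mem_nhds (hb y hy).2)
      have h3 : DifferentiableAt ℂ (fun y => f (ψ y)) y := h2.comp y h1
      exact p.differentiableAt.comp y (h3.sub_const _)) (by
      intro y hy z hz hyz
      have h1 := congrArg (Subtype.val) hyz
      simp only at h1
      rw [hg y hy, hg z hz] at h1
      have h2 : f (ψ y) = f (ψ z) := sub_left_injective h1
      have h3 := hinj (hb y hy).2 (hb z hz).2 h2
      exact hVinj (hb y hy).1.2 (hb z hz).1.2 h3) 0 (mem_ball_self hr)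
  have hgd : HasFDerivAt (fun y => p (f (ψ y) - f a))
      (p.comp ((fderiv ℂ f a).comp (fderiv ℂ (fun x => l (f x)) a).ker.subtypeL)) 0 := by
    have h1 : HasFDerivAt f (fderiv ℂ f a) (ψ 0) := by rw [hψ0]; exact hfa
    have h2 := h1.comp (0 : (fderiv ℂ (fun x => l (f x)) a).ker) hψs.hasFDerivAt
    exact p.hasFDerivAt.comp _ (h2.sub_const _)
  rw [hgd.fderiv] at hinjg
  rw [injective_iff_map_eq_zero]
  intro x hx
  have hxK : x ∈ (fderiv ℂ (fun x => l (f x)) a).ker := by
    show fderiv ℂ (fun x => l (f x)) a x = 0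
    rw [hφ.fderiv, ContinuousLinearMap.comp_apply, hx, map_zero]
  have h1 : (⟨x, hxK⟩ : (fderiv ℂ (fun x => l (f x)) a).ker) = 0 := by
    apply hinjg
    simp [hx]
  exact congrArg Subtype.val h1

theorem exists_not_mul {E : Type} [NormedAddCommGroup E] [NormedSpace ℂ E]
    (h : 1 < finrank ℂ E) (e : E) : ∃ e' : E, ∀ c : ℂ, e' ≠ c • e := by
  by_contra hcon
  push Not at hcon
  have := finrank_le_one (R := ℂ) e (fun w => by
    obtain ⟨c, hc⟩ := hcon w
    exact ⟨c, hc.symm⟩)
  omega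

/-- Osgood: an injective holomorphic map between spaces of the same finite dimension has injective
derivative everywhere. -/
theorem osgood (k : ℕ) : ∀ (E F : Type) [NormedAddCommGroup E] [NormedSpace ℂ E]
    [FiniteDimensional ℂ E] [NormedAddCommGroup F] [NormedSpace ℂ F] [FiniteDimensional ℂ F],
    finrank ℂ E = k → finrank ℂ F = k → ∀ (U : Set E), IsOpen U → ∀ f : E → F,
    DifferentiableOn ℂ f U → InjOn f U → ∀ a ∈ U, Function.Injective (fderiv ℂ f a) := by
  induction k with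
  | zero =>
    intro E F _ _ _ _ _ _ hE hF U hU f hf hinj a ha
    have : Subsingleton E := finrank_zero_iff.1 hE
    exact Function.injective_of_subsingleton _
  | succ k ih =>
    intro E F _ _ _ _ _ _ hE hF U hU f hf hinj a ha
    have dich : ∀ x ∈ U, fderiv ℂ f x ≠ 0 → Function.Injective (fderiv ℂ f x) := fun x hx h =>
      osgood_step ih hE hF hU hf hinj hx h
    by_contra hcon
    have hza : fderiv ℂ f a = 0 := by
      by_contra h
      exact hcon (dich a ha h)
    rcases Nat.eq_zero_or_pos k with hk | hk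
    · -- one variable
      subst hk
      let A : ℂ ≃L[ℂ] E := ContinuousLinearEquiv.ofFinrankEq (by rw [hE, finrank_self])
      let B : F ≃L[ℂ] ℂ := ContinuousLinearEquiv.ofFinrankEq (by rw [hF, finrank_self])
      have hW : IsOpen (A ⁻¹' U) := hU.preimage A.continuous
      have hd : ∀ t ∈ A ⁻¹' U, HasDerivAt (fun t => B (f (A t))) (B (fderiv ℂ f (A t) (A 1))) t := by
        intro t ht
        have h1 : HasFDerivAt f (fderiv ℂ f (A t)) (A t) :=
          (hf.differentiableAt (hU.mem_nhds ht)).hasFDerivAt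
        have h2 := (B.hasFDerivAt (x := f (A t))).comp t (h1.comp t A.hasFDerivAt)
        exact h2.hasDerivAt
      have h3 := deriv_ne_zero_of_injOn hW
        (fun t ht => (hd t ht).differentiableAt.differentiableWithinAt) (by
          intro s hs t ht hst
          exact A.injective (hinj hs ht (B.injective hst))) (a := A.symm a) (by simpa using ha)
      rw [(hd _ (by simpa using ha)).deriv] at h3
      apply h3
      simp [hza]
    · -- at least two variables
      have h2 : 1 < finrank ℂ E := by omega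
      let bE : Basis (Fin (k + 1)) ℂ E := finBasisOfFinrankEq ℂ E hE
      let bF : Basis (Fin (k + 1)) ℂ F := finBasisOfFinrankEq ℂ F hF
      set J : E → ℂ := fun x => (LinearMap.toMatrix bE bF (fderiv ℂ f x : E →ₗ[ℂ] F)).det with hJ
      have hJd : DifferentiableOn ℂ J U := by
        have hent : ∀ i j, DifferentiableOn ℂ
            (fun x => LinearMap.toMatrix bE bF (fderiv ℂ f x : E →ₗ[ℂ] F) i j) U := by
          intro i j
          have h3 : (fun x => LinearMap.toMatrix bE bF (fderiv ℂ f x : E →ₗ[ℂ] F) i j) =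
              fun x => (LinearMap.toContinuousLinearMap (bF.coord i)) (fderiv ℂ f x (bE j)) := by
            ext x
            rw [LinearMap.toMatrix_apply]
            rfl
          rw [h3]
          exact (ContinuousLinearMap.differentiable _).comp_differentiableOn
            (differentiableOn_fderiv_apply hU hf (bE j))
        rw [hJ]
        simp only [Matrix.det_apply]
        apply DifferentiableOn.fun_sum
        intro σ _
        apply DifferentiableOn.const_smul
        intro x hx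
        exact (HasFDerivWithinAt.finsetProd (fun i _ => (hent (σ i) i x hx).hasFDerivWithinAt)).differentiableWithinAt
      have hJ1 : ∀ x ∈ U, J x = 0 → fderiv ℂ f x = 0 := by
        intro x hx h0
        by_contra h
        have h4 := dich x hx h
        let T : E ≃ₗ[ℂ] F := LinearEquiv.ofInjectiveOfFinrankEq (fderiv ℂ f x : E →ₗ[ℂ] F) h4
          (by rw [hE, hF])
        have h5 : IsUnit (LinearMap.toMatrix bE bF (T : E →ₗ[ℂ] F)).det :=
          LinearEquiv.isUnit_det T bE bF
        have h6 : ((T : E ≃ₗ[ℂ] F) : E →ₗ[ℂ] F) = (fderiv ℂ f x : E →ₗ[ℂ] F) := by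
          ext y; rfl
        rw [h6] at h5
        exact h5.ne_zero h0
      have hJ2 : ∀ x, fderiv ℂ f x = 0 → J x = 0 := by
        intro x hx
        rw [hJ]
        simp only [hx, ContinuousLinearMap.toLinearMap_zero, map_zero]
        exact Matrix.det_zero
      obtain ⟨r, hr, hb⟩ := Metric.isOpen_iff.1 hU a ha
      obtain ⟨x1, hx1, hx1J⟩ : ∃ x ∈ ball a r, J x ≠ 0 := by
        by_contra hall
        push Not at hall
        have hnt : Nontrivial E := finrank_pos_iff.1 (by omega : 0 < finrank ℂ E)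
        obtain ⟨v, hv⟩ := exists_ne (0 : E)
        set y : E := a + ((r / (2 * ‖v‖) : ℝ) : ℂ) • v with hy
        have hvn : 0 < ‖v‖ := norm_pos_iff.2 hv
        have hyb : y ∈ ball a r := by
          rw [mem_ball, dist_eq_norm, hy, add_sub_cancel_left, norm_smul, Complex.norm_real,
            Real.norm_of_nonneg (by positivity)]
          have : r / (2 * ‖v‖) * ‖v‖ = r / 2 := by field_simp
          rw [this]
          linarith
        have hconst : f y = f a := by
          apply isOpen_ball.is_const_of_fderiv_eq_zero (𝕜 := ℂ)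
            (convex_ball a r).isPreconnected (hf.mono hb)
            (fun x hx => hJ1 x (hb hx) (hall x hx)) hyb (mem_ball_self hr)
        have h7 := hinj (hb hyb) ha hconst
        rw [hy] at h7
        have h8 : ((r / (2 * ‖v‖) : ℝ) : ℂ) • v = 0 := by
          have := sub_eq_zero.2 h7
          simpa using this
        rcases smul_eq_zero.1 h8 with h9 | h9
        · have h10 : r / (2 * ‖v‖) = 0 := by exact_mod_cast h9
          have : 0 < r / (2 * ‖v‖) := by positivity
          linarith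
        · exact hv h9
      set e : E := x1 - a with he
      obtain ⟨e', he'⟩ := exists_not_mul h2 e
      refine core_false hU hf hinj hJd hJ1 ha (hJ2 a hza) (e := e) ?_ he'
      intro hev
      have hWo : IsOpen {t : ℂ | a + t • e ∈ ball a r} := isOpen_ball.preimage (line_continuous a e)
      have hWc : Convex ℝ {t : ℂ | a + t • e ∈ ball a r} := by
        intro s hs t ht α β hα hβ hαβ
        have h3 : a + (α • s + β • t) • e = α • (a + s • e) + β • (a + t • e) := by
          have : a = α • a + β • a := by rw [← add_smul, hαβ, one_smul]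
          rw [Complex.real_smul, Complex.real_smul]
          conv_lhs => rw [this]
          module
        show a + (α • s + β • t) • e ∈ ball a r
        rw [h3]
        exact convex_ball a r hs ht hα hβ hαβ
      have han : AnalyticOnNhd ℂ (fun t : ℂ => J (a + t • e)) {t : ℂ | a + t • e ∈ ball a r} :=
        (line_diff (hJd.mono hb) a e).analyticOnNhd hWo
      have h0W : (0 : ℂ) ∈ {t : ℂ | a + t • e ∈ ball a r} := by
        show a + (0 : ℂ) • e ∈ ball a r
        rw [zero_smul, add_zero]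
        exact mem_ball_self hr
      have h1W : (1 : ℂ) ∈ {t : ℂ | a + t • e ∈ ball a r} := by
        show a + (1 : ℂ) • e ∈ ball a r
        rw [one_smul, he, add_sub_cancel]
        exact hx1
      have h11 := han.eqOn_zero_of_preconnected_of_eventuallyEq_zero hWc.isPreconnected h0W hev
        h1W
      simp only [one_smul, he, add_sub_cancel, Pi.zero_apply] at h11
      exact hx1J h11


/-- If `f` is injective and holomorphic and `f ∘ v` is holomorphic, then `v` is holomorphic. -/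
theorem differentiableOn_of_comp {E F : Type} [NormedAddCommGroup E] [NormedSpace ℂ E]
    [FiniteDimensional ℂ E] [NormedAddCommGroup F] [NormedSpace ℂ F] [FiniteDimensional ℂ F]
    (hdim : finrank ℂ E = finrank ℂ F) {U V : Set E} (hU : IsOpen U) (hV : IsOpen V)
    {f g : E → F} (hf : DifferentiableOn ℂ f U) (hinj : InjOn f U)
    (hg : DifferentiableOn ℂ g V) {v : E → E} (hv : ∀ z ∈ V, v z ∈ U)
    (hvf : ∀ z ∈ V, f (v z) = g z) : DifferentiableOn ℂ v V := by
  have hcE : CompleteSpace E := FiniteDimensional.complete ℂ E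
  have hcF : CompleteSpace F := FiniteDimensional.complete ℂ F
  intro z hz
  apply DifferentiableAt.differentiableWithinAt
  have hw := hv z hz
  have hinjd := osgood (finrank ℂ E) E F rfl hdim.symm U hU f hf hinj (v z) hw
  let T : E ≃ₗ[ℂ] F := LinearEquiv.ofInjectiveOfFinrankEq (fderiv ℂ f (v z) : E →ₗ[ℂ] F) hinjd hdim
  have hT : (T.toContinuousLinearEquiv : E →L[ℂ] F) = fderiv ℂ f (v z) := by
    ext y
    rfl
  have hstr : HasStrictFDerivAt f (T.toContinuousLinearEquiv : E →L[ℂ] F) (v z) := by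
    rw [hT]
    have h1 : ContDiffAt ℂ (1 : ℕ) f (v z) :=
      (contDiffOn_of_differentiableOn hU hf 1).contDiffAt (hU.mem_nhds hw)
    exact h1.hasStrictFDerivAt (by simp)
  have hgc : Tendsto g (𝓝 z) (𝓝 (f (v z))) := by
    rw [hvf z hz]
    exact (hg.differentiableAt (hV.mem_nhds hz)).continuousAt.tendsto
  have h1 := hgc.eventually hstr.eventually_right_inverse
  have h2 : Tendsto (hstr.localInverse f T.toContinuousLinearEquiv (v z)) (𝓝 (f (v z)))
      (𝓝 (v z)) := by
    have h3 := hstr.localInverse_continuousAt.tendsto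
    have h4 : hstr.localInverse f T.toContinuousLinearEquiv (v z) (f (v z)) = v z :=
      hstr.localInverse_apply_image
    rwa [h4] at h3
  have h5 := (h2.comp hgc).eventually (hU.mem_nhds hw)
  have heq : v =ᶠ[𝓝 z] fun x => hstr.localInverse f T.toContinuousLinearEquiv (v z) (g x) := by
    filter_upwards [h1, h5, hV.mem_nhds hz] with x hx1 hx2 hx3
    apply hinj (hv x hx3) hx2
    rw [hvf x hx3]
    exact hx1.symm
  refine DifferentiableAt.congr_of_eventuallyEq ?_ heq
  have h6 : DifferentiableAt ℂ (hstr.localInverse f T.toContinuousLinearEquiv (v z)) (g z) := by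
    rw [← hvf z hz]
    exact hstr.to_localInverse.hasFDerivAt.differentiableAt
  exact h6.comp z (hg.differentiableAt (hV.mem_nhds hz))

end Osgood

end Pool.Agent.KS7_39.H540
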