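import Mathlib
import Pool.Agent.KS7_39.Helper540.Taylor

set_option autoImplicit false

namespace Pool.Agent.KS7_39.H540

open Metric Set Filter Topology Asymptotics

section NearZero

variable {E F : Type*} [NormedAddCommGroup E] [NormedSpace ℂ E]
  [NormedAddCommGroup F] [NormedSpace ℂ F]

/-- Quantitative strict differentiability at the origin of a holomorphic map. -/
theorem near_zero_gen {h : E → F} {R : ℝ} (hR : 0 < R) (hd : DifferentiableOn ℂ h (ball 0 R)) :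
    ∃ δ > 0, ∃ C ≥ 0, δ < R ∧ ∀ p p' : E, ‖p‖ < δ → ‖p'‖ < δ →
      ‖h p - h p' - fderiv ℂ h 0 (p - p')‖ ≤ C * max ‖p‖ ‖p'‖ * ‖p - p'‖ := by
  obtain ⟨r, hr, M, hM0, hsub, hM⟩ := exists_bound isOpen_ball hd (mem_ball_self hR)
  have hd' : DifferentiableOn ℂ h (ball 0 r) := hd.mono hsub
  set g : E → F := fun z => h z - h 0 - fderiv ℂ h 0 z with hg
  have hsec : ∀ z ∈ ball (0 : E) r, ‖g z‖ ≤ 4 * M * (‖z‖ / r) ^ 2 := by
    intro z hz
    have := norm_sub_sub_fderiv_le hr hd' hM hz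
    simpa [hg] using this
  refine ⟨min (r / 8) (R / 2), by positivity, 128 * M / r ^ 2, by positivity,
    (min_le_right _ _).trans_lt (by linarith), ?_⟩
  intro p p' hp hp'
  have hp8 : ‖p‖ < r / 8 := hp.trans_le (min_le_left _ _)
  have hp8' : ‖p'‖ < r / 8 := hp'.trans_le (min_le_left _ _)
  set s := max ‖p‖ ‖p'‖ with hs
  have hs8 : s < r / 8 := max_lt hp8 hp8'
  have hsp : ‖p‖ ≤ s := le_max_left _ _
  have hsp' : ‖p'‖ ≤ s := le_max_right _ _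
  have hs0 : 0 ≤ s := (norm_nonneg _).trans hsp
  rcases hs0.eq_or_lt with hs0 | hs0
  · have e1 : p = 0 := norm_le_zero_iff.1 (by rw [hs0]; exact hsp)
    have e2 : p' = 0 := norm_le_zero_iff.1 (by rw [hs0]; exact hsp')
    simp [e1, e2]
  have hgd : DifferentiableOn ℂ g (ball 0 (8 * s)) :=
    ((hd'.mono (ball_subset_ball (by linarith))).sub_const _).sub
      (fderiv ℂ h 0).differentiable.differentiableOn
  have hgM : ∀ z ∈ ball (0 : E) (8 * s), ‖g z‖ ≤ 4 * M * (8 * s / r) ^ 2 := by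
    intro z hz
    have hz' : ‖z‖ < 8 * s := by simpa using hz
    refine (hsec z (ball_subset_ball (by linarith) hz)).trans ?_
    gcongr
  have hpm : p' ∈ ball (0 : E) (8 * s / 2) := by
    rw [mem_ball_zero_iff]; linarith
  have hpm' : p ∈ ball p' (8 * s / 2) := by
    rw [mem_ball, dist_eq_norm]
    calc ‖p - p'‖ ≤ ‖p‖ + ‖p'‖ := norm_sub_le _ _
      _ < 8 * s / 2 := by linarith
  have := lipschitz_half hgd hgM hpm hpm'
  have e : h p - h p' - fderiv ℂ h 0 (p - p') = g p - g p' := by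
    simp only [hg, map_sub]; abel
  rw [e]
  refine this.trans (le_of_eq ?_)
  field_simp
  ring

/-- Taylor coefficients along the curve `ζ ↦ ζ a + ζ^k v`. -/
theorem tc_curve [CompleteSpace F] {h : E → F} {R : ℝ} (hR : 0 < R)
    (hd : DifferentiableOn ℂ h (ball 0 R)) {k : ℕ} (hk : 2 ≤ k) (a v : E) :
    tc k (fun ζ : ℂ => h (ζ • a + ζ ^ k • v)) =
      tc k (fun ζ : ℂ => h (ζ • a)) + fderiv ℂ h 0 v := by
  obtain ⟨δ, hδ, C, hC0, hδR, hC⟩ := near_zero_gen hR hd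
  set K : ℝ := ‖a‖ + ‖v‖ + 1 with hK
  have hK1 : 1 ≤ K := by have := norm_nonneg a; have := norm_nonneg v; linarith
  have hK0 : 0 < K := by linarith
  set δ' : ℝ := min (δ / K) 1 with hδ'
  have hδ'0 : 0 < δ' := by positivity
  have hδ'1 : δ' ≤ 1 := min_le_right _ _
  have hδ'K : δ' ≤ δ / K := min_le_left _ _
  have hin1 : ∀ ζ ∈ ball (0 : ℂ) δ', ‖ζ • a‖ ≤ K * ‖ζ‖ := by
    intro ζ _
    rw [norm_smul, mul_comm]
    gcongr
    have := norm_nonneg v; linarith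
  have hpw : ∀ ζ ∈ ball (0 : ℂ) δ', ‖ζ‖ ^ k ≤ ‖ζ‖ := by
    intro ζ hζ
    have hζ' : ‖ζ‖ < δ' := by simpa using hζ
    calc ‖ζ‖ ^ k ≤ ‖ζ‖ ^ 1 := pow_le_pow_of_le_one (norm_nonneg _) (by linarith) (by omega)
      _ = ‖ζ‖ := pow_one _
  have hin2 : ∀ ζ ∈ ball (0 : ℂ) δ', ‖ζ • a + ζ ^ k • v‖ ≤ K * ‖ζ‖ := by
    intro ζ hζ
    calc ‖ζ • a + ζ ^ k • v‖ ≤ ‖ζ • a‖ + ‖ζ ^ k • v‖ := norm_add_le _ _
      _ = ‖ζ‖ * ‖a‖ + ‖ζ‖ ^ k * ‖v‖ := by rw [norm_smul, norm_smul, norm_pow]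
      _ ≤ ‖ζ‖ * ‖a‖ + ‖ζ‖ * ‖v‖ := by have := hpw ζ hζ; gcongr
      _ ≤ K * ‖ζ‖ := by rw [hK]; nlinarith [norm_nonneg ζ]
  have hlt : ∀ ζ ∈ ball (0 : ℂ) δ', K * ‖ζ‖ < δ := by
    intro ζ hζ
    have hζ' : ‖ζ‖ < δ' := by simpa using hζ
    have : ‖ζ‖ < δ / K := hζ'.trans_le hδ'K
    rw [lt_div_iff₀ hK0] at this
    linarith
  have hd1 : DifferentiableOn ℂ (fun ζ : ℂ => h (ζ • a + ζ ^ k • v)) (ball 0 δ') := by
    intro ζ hζ
    have h2 : ζ • a + ζ ^ k • v ∈ ball (0 : E) R := by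
      rw [mem_ball_zero_iff]
      exact (hin2 ζ hζ).trans_lt ((hlt ζ hζ).trans hδR)
    have h3 : DifferentiableAt ℂ (fun ζ : ℂ => ζ • a + ζ ^ k • v) ζ := by fun_prop
    exact ((hd.differentiableAt (isOpen_ball.mem_nhds h2)).comp ζ h3).differentiableWithinAt
  have hd2 : DifferentiableOn ℂ (fun ζ : ℂ => h (ζ • a)) (ball 0 δ') := by
    intro ζ hζ
    have h2 : ζ • a ∈ ball (0 : E) R := by
      rw [mem_ball_zero_iff]
      exact (hin1 ζ hζ).trans_lt ((hlt ζ hζ).trans hδR)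
    have h3 : DifferentiableAt ℂ (fun ζ : ℂ => ζ • a) ζ := by fun_prop
    exact ((hd.differentiableAt (isOpen_ball.mem_nhds h2)).comp ζ h3).differentiableWithinAt
  have hb : ∀ ζ ∈ ball (0 : ℂ) δ',
      ‖h (ζ • a + ζ ^ k • v) - h (ζ • a) - ζ ^ k • fderiv ℂ h 0 v‖ ≤
        (C * K * ‖v‖) * ‖ζ‖ ^ (k + 1) := by
    intro ζ hζ
    have key := hC (ζ • a + ζ ^ k • v) (ζ • a) ((hin2 ζ hζ).trans_lt (hlt ζ hζ))
      ((hin1 ζ hζ).trans_lt (hlt ζ hζ))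
    rw [add_sub_cancel_left, map_smul] at key
    refine key.trans ?_
    have hmax : max ‖ζ • a + ζ ^ k • v‖ ‖ζ • a‖ ≤ K * ‖ζ‖ := max_le (hin2 ζ hζ) (hin1 ζ hζ)
    calc C * max ‖ζ • a + ζ ^ k • v‖ ‖ζ • a‖ * ‖ζ ^ k • v‖
        ≤ C * (K * ‖ζ‖) * (‖ζ‖ ^ k * ‖v‖) := by
          have e4 : ‖ζ ^ k • v‖ = ‖ζ‖ ^ k * ‖v‖ := by rw [norm_smul, norm_pow]
          rw [e4]; gcongr
      _ = _ := by rw [pow_succ]; ring
  have h3 : tc k (fun ζ => h (ζ • a + ζ ^ k • v) - h (ζ • a) - ζ ^ k • fderiv ℂ h 0 v) = 0 :=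
    tc_eq_zero_of_bound k hδ'0 ((hd1.sub hd2).sub (by fun_prop)) hb
  rw [tc_sub k ((contDiffAt_of_ball hδ'0 hd1 k).sub (contDiffAt_of_ball hδ'0 hd2 k)) (by fun_prop),
    tc_sub k (contDiffAt_of_ball hδ'0 hd1 k) (contDiffAt_of_ball hδ'0 hd2 k), tc_pow_smul,
    if_pos rfl, sub_sub, sub_eq_zero] at h3
  exact h3

theorem tc_one_curve {h : E → F} {R : ℝ} (hR : 0 < R)
    (hd : DifferentiableOn ℂ h (ball 0 R)) {k : ℕ} (hk : 2 ≤ k) (a v : E) :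
    tc 1 (fun ζ : ℂ => h (ζ • a + ζ ^ k • v)) = fderiv ℂ h 0 a := by
  have hk0 : k ≠ 0 := by omega
  have hk1 : k - 1 ≠ 0 := by omega
  apply tc_one
  have h1 : HasDerivAt (fun ζ : ℂ => ζ • a + ζ ^ k • v) a 0 := by
    have := ((hasDerivAt_id (0 : ℂ)).smul_const a).add ((hasDerivAt_pow k (0 : ℂ)).smul_const v)
    refine this.congr_deriv ?_
    simp [hk1]
  have h2 : HasFDerivAt h (fderiv ℂ h 0) ((0 : ℂ) • a + (0 : ℂ) ^ k • v) := by
    simp only [zero_smul, ne_eq, hk0, not_false_eq_true, zero_pow, add_zero]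
    exact (hd.differentiableAt (ball_mem_nhds _ hR)).hasFDerivAt
  exact h2.comp_hasDerivAt 0 h1

end NearZero

end Pool.Agent.KS7_39.H540
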