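import Mathlib
import Pool.Agent.KS7_39.Helper540.Trans

set_option autoImplicit false

namespace Pool.Agent.KS7_39.H540

open Metric Set Filter Topology

/-- The point `(x, y)` of `ℂ^2`. -/
noncomputable def pt (x y : ℂ) : EuclideanSpace ℂ (Fin 2) := !₂[x, y]

@[simp] theorem pt_zero_apply (x y : ℂ) : (pt x y) 0 = x := rfl

@[simp] theorem pt_one_apply (x y : ℂ) : (pt x y) 1 = y := rfl

theorem pt_eta (z : EuclideanSpace ℂ (Fin 2)) : pt (z 0) (z 1) = z := by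
  ext i; fin_cases i <;> rfl

theorem smul_pt (c x y : ℂ) : c • pt x y = pt (c * x) (c * y) := by
  ext i; fin_cases i <;> rfl

theorem pt_add (x y a b : ℂ) : pt x y + pt a b = pt (x + a) (y + b) := by
  ext i; fin_cases i <;> rfl

theorem pt_sub (x y a b : ℂ) : pt x y - pt a b = pt (x - a) (y - b) := by
  ext i; fin_cases i <;> rfl

@[simp] theorem pt_zero_zero : pt 0 0 = 0 := by
  ext i; fin_cases i <;> rfl

theorem pt_eq (x y : ℂ) : pt x y = x • pt 1 0 + y • pt 0 1 := by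
  rw [smul_pt, smul_pt, pt_add]; simp

theorem norm_pt_sq (x y : ℂ) : ‖pt x y‖ ^ 2 = ‖x‖ ^ 2 + ‖y‖ ^ 2 := by
  rw [EuclideanSpace.norm_sq_eq, Fin.sum_univ_two]; rfl

theorem norm_sq_two (z : EuclideanSpace ℂ (Fin 2)) : ‖z‖ ^ 2 = ‖z 0‖ ^ 2 + ‖z 1‖ ^ 2 := by
  rw [EuclideanSpace.norm_sq_eq, Fin.sum_univ_two]

theorem inner_pt (x y : ℂ) (w : EuclideanSpace ℂ (Fin 2)) :
    inner ℂ (pt x y) w = (starRingEnd ℂ) x * w 0 + (starRingEnd ℂ) y * w 1 := by
  rw [PiLp.inner_apply, Fin.sum_univ_two]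
  simp [mul_comm]

theorem norm_apply_le_two (z : EuclideanSpace ℂ (Fin 2)) (i : Fin 2) : ‖z i‖ ≤ ‖z‖ := by
  have h1 := norm_sq_two z
  have h2 := norm_nonneg (z 0)
  have h3 := norm_nonneg (z 1)
  have h4 := norm_nonneg z
  fin_cases i
  · show ‖z 0‖ ≤ ‖z‖
    nlinarith
  · show ‖z 1‖ ≤ ‖z‖
    nlinarith

theorem norm_pt_one_zero : ‖pt 1 0‖ = 1 := by
  have h := norm_pt_sq 1 0
  have h2 := norm_nonneg (pt 1 0)
  simp at h
  rcases h with h | h
  · exact h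
  · linarith

theorem norm_pt_zero_one : ‖pt 0 1‖ = 1 := by
  have h := norm_pt_sq 0 1
  have h2 := norm_nonneg (pt 0 1)
  simp at h
  rcases h with h | h
  · exact h
  · linarith

theorem norm_pt_left (x : ℂ) : ‖pt x 0‖ = ‖x‖ := by
  have : pt x 0 = x • pt 1 0 := by rw [smul_pt]; simp
  rw [this, norm_smul, norm_pt_one_zero, mul_one]

theorem pt_mem_ball {x y : ℂ} (h : ‖x‖ ^ 2 + ‖y‖ ^ 2 < 1) :
    pt x y ∈ ball (0 : EuclideanSpace ℂ (Fin 2)) 1 := by
  rw [mem_ball_zero_iff]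
  have h1 := norm_pt_sq x y
  have h2 := norm_nonneg (pt x y)
  nlinarith

theorem pt_mem_ball_iff {x y : ℂ} :
    pt x y ∈ ball (0 : EuclideanSpace ℂ (Fin 2)) 1 ↔ ‖x‖ ^ 2 + ‖y‖ ^ 2 < 1 := by
  refine ⟨fun h => ?_, pt_mem_ball⟩
  rw [mem_ball_zero_iff] at h
  have h1 := norm_pt_sq x y
  have h2 := norm_nonneg (pt x y)
  nlinarith

theorem ball_norm_sq {z : EuclideanSpace ℂ (Fin 2)}
    (hz : z ∈ ball (0 : EuclideanSpace ℂ (Fin 2)) 1) : ‖z 0‖ ^ 2 + ‖z 1‖ ^ 2 < 1 := by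
  rw [← pt_eta z] at hz
  exact pt_mem_ball_iff.1 hz

theorem pt_left_mem {x : ℂ} (h : ‖x‖ < 1) :
    pt x 0 ∈ ball (0 : EuclideanSpace ℂ (Fin 2)) 1 := by
  rw [mem_ball_zero_iff, norm_pt_left]; exact h

/-- The two coordinate functions as continuous linear maps. -/
noncomputable def co (i : Fin 2) : EuclideanSpace ℂ (Fin 2) →L[ℂ] ℂ := EuclideanSpace.proj i

@[simp] theorem co_apply (i : Fin 2) (z : EuclideanSpace ℂ (Fin 2)) : co i z = z i := rfl

theorem hasFDerivAt_pt {G : Type*} [NormedAddCommGroup G] [NormedSpace ℂ G] {f g : G → ℂ}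
    {f' g' : G →L[ℂ] ℂ} {x : G} (hf : HasFDerivAt f f' x) (hg : HasFDerivAt g g' x) :
    HasFDerivAt (fun x => pt (f x) (g x)) (f'.smulRight (pt 1 0) + g'.smulRight (pt 0 1)) x := by
  have h1 : (fun x => pt (f x) (g x)) = fun x => f x • pt 1 0 + g x • pt 0 1 := by
    ext1 x; exact pt_eq _ _
  rw [h1]
  exact (hf.smul_const _).add (hg.smul_const _)

theorem hasDerivAt_pt {f g : ℂ → ℂ} {f' g' : ℂ} {x : ℂ} (hf : HasDerivAt f f' x)
    (hg : HasDerivAt g g' x) : HasDerivAt (fun x => pt (f x) (g x)) (pt f' g') x := by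
  have h1 : (fun x => pt (f x) (g x)) = fun x => f x • pt 1 0 + g x • pt 0 1 := by
    ext1 x; exact pt_eq _ _
  rw [h1, pt_eq f' g']
  exact (hf.smul_const _).add (hg.smul_const _)

theorem differentiableAt_pt {G : Type*} [NormedAddCommGroup G] [NormedSpace ℂ G] {f g : G → ℂ}
    {x : G} (hf : DifferentiableAt ℂ f x) (hg : DifferentiableAt ℂ g x) :
    DifferentiableAt ℂ (fun x => pt (f x) (g x)) x :=
  (hasFDerivAt_pt hf.hasFDerivAt hg.hasFDerivAt).differentiableAt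

theorem continuous_pt {X : Type*} [TopologicalSpace X] {f g : X → ℂ} (hf : Continuous f)
    (hg : Continuous g) : Continuous (fun x => pt (f x) (g x)) := by
  have h1 : (fun x => pt (f x) (g x)) = fun x => f x • pt 1 0 + g x • pt 0 1 := by
    ext1 x; exact pt_eq _ _
  rw [h1]
  fun_prop

/-- The mixed second coefficient. -/
noncomputable def mf (f : EuclideanSpace ℂ (Fin 2) → EuclideanSpace ℂ (Fin 2)) :
    EuclideanSpace ℂ (Fin 2) :=
  tc 1 (fun ζ : ℂ => fderiv ℂ f (pt ζ 0) (pt 0 1))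

/-- The quadratic part. -/
noncomputable def qf (f : EuclideanSpace ℂ (Fin 2) → EuclideanSpace ℂ (Fin 2))
    (u : EuclideanSpace ℂ (Fin 2)) : EuclideanSpace ℂ (Fin 2) :=
  tc 2 (fun ζ : ℂ => f (ζ • u))

theorem qf_pt {f : EuclideanSpace ℂ (Fin 2) → EuclideanSpace ℂ (Fin 2)}
    (hf : DifferentiableOn ℂ f (ball 0 1)) (x y : ℂ) :
    qf f (pt x y) = x ^ 2 • qf f (pt 1 0) + (x * y) • mf f + y ^ 2 • qf f (pt 0 1) := by
  have hb : ball (0 : EuclideanSpace ℂ (Fin 2)) 1 ∈ 𝓝 (0 : EuclideanSpace ℂ (Fin 2)) :=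
    ball_mem_nhds _ one_pos
  set B := fderiv ℂ (fderiv ℂ f) 0 with hB
  have hq : ∀ u, qf f u = (1 / 2 : ℂ) • B u u := by
    intro u
    rw [qf, tc_slice one_pos hf 2 u, iteratedFDeriv_two_apply, hB]
    norm_num [Nat.factorial]
  have hc2 : ContDiffAt ℂ (2 : ℕ) f 0 :=
    (contDiffOn_of_differentiableOn isOpen_ball hf 2).contDiffAt hb
  have hfd : DifferentiableAt ℂ (fderiv ℂ f) 0 := by
    have h1 : ContDiffAt ℂ 1 (fderiv ℂ f) 0 := hc2.fderiv_right (by norm_num)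
    exact h1.differentiableAt (by norm_num)
  have hsym : ∀ v w, B v w = B w v := by
    intro v w
    apply second_derivative_symmetric_of_eventually (𝕜 := ℂ) (f := f) (f' := fderiv ℂ f) (x := 0)
    · filter_upwards [hb] with z hz
      exact (hf.differentiableAt (isOpen_ball.mem_nhds hz)).hasFDerivAt
    · exact hfd.hasFDerivAt
  have hm : mf f = B (pt 1 0) (pt 0 1) := by
    rw [mf]
    apply tc_one
    have h1 : HasDerivAt (fun ζ : ℂ => pt ζ 0) (pt 1 0) 0 :=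
      hasDerivAt_pt (hasDerivAt_id 0) (hasDerivAt_const 0 0)
    have h2 : HasFDerivAt (fderiv ℂ f) B (pt 0 0) := by
      rw [pt_zero_zero]; exact hfd.hasFDerivAt
    have h3 : HasDerivAt (fun ζ : ℂ => fderiv ℂ f (pt ζ 0)) (B (pt 1 0)) 0 :=
      HasFDerivAt.comp_hasDerivAt (f := fun ζ : ℂ => pt ζ 0) (0 : ℂ) h2 h1
    exact h3.clm_apply (hasDerivAt_const (0 : ℂ) (pt 0 1)) |>.congr_deriv (by simp)
  rw [hq, hq, hq, hm, pt_eq x y]
  simp only [map_add, map_smul, add_apply, smul_apply]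
  rw [hsym (pt 0 1) (pt 1 0)]
  module

end Pool.Agent.KS7_39.H540
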