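import Mathlib
import Pool.Agent.KS7_39.Helper540.Slice

set_option autoImplicit false

namespace Pool.Agent.KS7_39.H540

open Metric Set Filter Topology MeasureTheory

section AC

theorem ac_of_dist_le {X Y : Type*} [PseudoMetricSpace X] [PseudoMetricSpace Y] {f : ℝ → X}
    {g : ℝ → Y} {a b K : ℝ} (hK : 0 ≤ K) (hg : AbsolutelyContinuousOnInterval g a b)
    (h : ∀ x ∈ uIcc a b, ∀ y ∈ uIcc a b, dist (f x) (f y) ≤ K * dist (g x) (g y)) :
    AbsolutelyContinuousOnInterval f a b := by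
  rw [absolutelyContinuousOnInterval_iff] at hg ⊢
  intro ε hε
  obtain ⟨δ, hδ, hδ'⟩ := hg (ε / (K + 1)) (by positivity)
  refine ⟨δ, hδ, fun E hE hlen => ?_⟩
  have h1 := hδ' E hE hlen
  calc ∑ i ∈ Finset.range E.1, dist (f (E.2 i).1) (f (E.2 i).2)
      ≤ ∑ i ∈ Finset.range E.1, K * dist (g (E.2 i).1) (g (E.2 i).2) := by
        apply Finset.sum_le_sum
        intro i hi
        exact h _ (hE.left i hi).left _ (hE.left i hi).right
    _ = K * ∑ i ∈ Finset.range E.1, dist (g (E.2 i).1) (g (E.2 i).2) := by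
        rw [Finset.mul_sum]
    _ ≤ K * (ε / (K + 1)) := by gcongr
    _ < (K + 1) * (ε / (K + 1)) := by gcongr; linarith
    _ = ε := by field_simp

theorem ac_le_of_deriv_nonpos {f f' : ℝ → ℝ} {a b : ℝ} (hab : a ≤ b)
    (hf : AbsolutelyContinuousOnInterval f a b)
    (h : ∀ᵐ x, x ∈ Ioo a b → HasDerivAt f (f' x) x ∧ f' x ≤ 0) : f b ≤ f a := by
  have h1 := hf.integral_deriv_eq_sub
  have h2 : ∫ x in a..b, deriv f x ≤ 0 := by
    rw [intervalIntegral.integral_of_le hab]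
    apply integral_nonpos_of_ae
    rw [EventuallyLE, ae_restrict_iff' measurableSet_Ioc]
    have hb : ∀ᵐ x : ℝ, x ≠ b := by simp [ae_iff, measure_singleton]
    filter_upwards [h, hb] with x hx hxb hxm
    obtain ⟨h3, h4⟩ := hx ⟨hxm.1, lt_of_le_of_ne hxm.2 hxb⟩
    rw [h3.deriv]
    exact h4
  linarith

end AC

section Growth

variable {E : Type*} [NormedAddCommGroup E] [InnerProductSpace ℂ E]

/-- A solution of the Loewner equation in integral form. -/
structure Sol (h : E → ℝ → E) (z : E) (v : ℝ → E) : Prop where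
  mem : ∀ t, 0 ≤ t → ‖v t‖ < 1
  int : ∀ t, 0 ≤ t → IntervalIntegrable (fun s => h (v s) s) volume 0 t
  eq : ∀ t, 0 ≤ t → v t = z - ∫ s in (0 : ℝ)..t, h (v s) s

theorem Sol.start {h : E → ℝ → E} {z : E} {v : ℝ → E} (hv : Sol h z v) : v 0 = z := by
  have := hv.eq 0 le_rfl
  simpa using this

theorem Sol.intervalIntegrable {h : E → ℝ → E} {z : E} {v : ℝ → E} (hv : Sol h z v) {a b : ℝ}
    (ha : 0 ≤ a) (hb : 0 ≤ b) : IntervalIntegrable (fun s => h (v s) s) volume a b :=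
  (hv.int a ha).symm.trans (hv.int b hb)

theorem Sol.sub_eq {h : E → ℝ → E} {z : E} {v : ℝ → E} (hv : Sol h z v) {a b : ℝ}
    (ha : 0 ≤ a) (hb : 0 ≤ b) : v b - v a = -∫ s in a..b, h (v s) s := by
  rw [hv.eq a ha, hv.eq b hb, ← intervalIntegral.integral_interval_sub_left (hv.int b hb)
    (hv.int a ha)]
  abel

variable [CompleteSpace E]

theorem Sol.ac {h : E → ℝ → E} {z : E} {v : ℝ → E} (hv : Sol h z v) {a b : ℝ}
    (ha : 0 ≤ a) (hab : a ≤ b) : AbsolutelyContinuousOnInterval v a b := by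
  have hint := (hv.intervalIntegrable ha (ha.trans hab)).norm
  have hg := hint.absolutelyContinuousOnInterval_intervalIntegral (c := a) (by simp)
  apply ac_of_dist_le zero_le_one hg
  intro x hx y hy
  rw [uIcc_of_le hab] at hx hy
  have hx0 : 0 ≤ x := ha.trans hx.1
  have hy0 : 0 ≤ y := ha.trans hy.1
  rw [dist_comm, dist_eq_norm, hv.sub_eq hx0 hy0, norm_neg, one_mul, dist_comm, Real.dist_eq]
  have i1 : IntervalIntegrable (fun s => ‖h (v s) s‖) volume a y :=
    (hv.intervalIntegrable ha hy0).norm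
  have i2 : IntervalIntegrable (fun s => ‖h (v s) s‖) volume a x :=
    (hv.intervalIntegrable ha hx0).norm
  rw [intervalIntegral.integral_interval_sub_left i1 i2]
  exact intervalIntegral.norm_integral_le_abs_integral_norm

theorem Sol.continuousOn {h : E → ℝ → E} {z : E} {v : ℝ → E} (hv : Sol h z v) {a b : ℝ}
    (ha : 0 ≤ a) (hab : a ≤ b) : ContinuousOn v (Icc a b) := by
  have := (hv.ac ha hab).continuousOn
  rwa [uIcc_of_le hab] at this

theorem Sol.hasDerivAt {h : E → ℝ → E} {z : E} {v : ℝ → E} (hv : Sol h z v) {a b : ℝ}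
    (ha : 0 ≤ a) (hab : a ≤ b) :
    ∀ᵐ x, x ∈ Ioo a b → HasDerivAt v (-(h (v x) x)) x := by
  have hint := hv.intervalIntegrable ha (ha.trans hab)
  filter_upwards [hint.ae_hasDerivAt_integral] with x hx hxm
  have h1 := hx (by rw [uIcc_of_le hab]; exact ⟨hxm.1.le, hxm.2.le⟩) a (by simp)
  have h2 : HasDerivAt (fun y => v a - ∫ s in a..y, h (v s) s) (-(h (v x) x)) x := by
    exact h1.const_sub (v a)
  refine h2.congr_of_eventuallyEq ?_
  filter_upwards [Ioo_mem_nhds hxm.1 hxm.2] with y hy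
  have := hv.sub_eq ha (ha.trans hy.1.le)
  rw [sub_eq_iff_eq_add] at this
  rw [this]
  abel

/-- Squared norm of a solution. -/
theorem Sol.normSq_hasDerivAt {h : E → ℝ → E} {z : E} {v : ℝ → E} (hv : Sol h z v) {a b : ℝ}
    (ha : 0 ≤ a) (hab : a ≤ b) :
    ∀ᵐ x, x ∈ Ioo a b →
      HasDerivAt (fun t => ‖v t‖ ^ 2) (-(2 * (inner ℂ (v x) (h (v x) x)).re)) x := by
  filter_upwards [hv.hasDerivAt ha hab] with x hx hxm
  have h1 := hx hxm
  have h2 := HasDerivAt.inner ℂ h1 h1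
  have h3 := Complex.reCLM.hasFDerivAt.comp_hasDerivAt x h2
  have e1 : (Complex.reCLM ∘ fun t => inner ℂ (v t) (v t)) = fun t => ‖v t‖ ^ 2 := by
    ext t
    simp only [Function.comp_apply, Complex.reCLM_apply]
    rw [inner_self_eq_norm_sq_to_K]
    norm_cast
  rw [e1] at h3
  refine h3.congr_deriv ?_
  simp only [Complex.reCLM_apply, Complex.add_re, inner_neg_right, inner_neg_left, Complex.neg_re]
  have : (inner ℂ (h (v x) x) (v x)).re = (inner ℂ (v x) (h (v x) x)).re := by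
    rw [← inner_conj_symm, Complex.conj_re]
  rw [this]
  ring

theorem Sol.normSq_ac {h : E → ℝ → E} {z : E} {v : ℝ → E} (hv : Sol h z v) {a b : ℝ}
    (ha : 0 ≤ a) (hab : a ≤ b) : AbsolutelyContinuousOnInterval (fun t => ‖v t‖ ^ 2) a b := by
  apply ac_of_dist_le (K := 2) (by norm_num) (hv.ac ha hab)
  intro x hx y hy
  rw [uIcc_of_le hab] at hx hy
  have h1 := hv.mem x (ha.trans hx.1)
  have h2 := hv.mem y (ha.trans hy.1)
  rw [Real.dist_eq, dist_eq_norm]
  have h3 : ‖v x‖ ^ 2 - ‖v y‖ ^ 2 = (‖v x‖ + ‖v y‖) * (‖v x‖ - ‖v y‖) := by ring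
  rw [h3, abs_mul]
  have h4 := abs_norm_sub_norm_le (v x) (v y)
  have h5 : |‖v x‖ + ‖v y‖| ≤ 2 := by
    rw [abs_of_nonneg (by positivity)]; linarith
  exact mul_le_mul h5 h4 (abs_nonneg _) (by norm_num)

theorem Sol.norm_antitone {h : E → ℝ → E} {z : E} {v : ℝ → E} (hv : Sol h z v)
    (hh : ∀ s, Cara (fun w => h w s)) {a b : ℝ} (ha : 0 ≤ a) (hab : a ≤ b) : ‖v b‖ ≤ ‖v a‖ := by
  have h1 : ‖v b‖ ^ 2 ≤ ‖v a‖ ^ 2 := by
    apply ac_le_of_deriv_nonpos (f := fun t => ‖v t‖ ^ 2)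
      (f' := fun x => -(2 * (inner ℂ (v x) (h (v x) x)).re)) hab (hv.normSq_ac ha hab)
    filter_upwards [hv.normSq_hasDerivAt ha hab] with x hx hxm
    refine ⟨hx hxm, ?_⟩
    have := (hh x).re_inner_nonneg (hv.mem x (ha.trans hxm.1.le))
    linarith
  exact (pow_le_pow_iff_left₀ (norm_nonneg _) (norm_nonneg _) two_ne_zero).1 h1

/-- The auxiliary function `½ log n - 2 log (1 - √n)`. -/
noncomputable def Th (n : ℝ) : ℝ := 1 / 2 * Real.log n - 2 * Real.log (1 - Real.sqrt n)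

theorem Th_hasDerivAt {n : ℝ} (h0 : 0 < n) (h1 : n < 1) :
    HasDerivAt Th ((1 + Real.sqrt n) / (2 * n * (1 - Real.sqrt n))) n := by
  have hs0 : 0 < Real.sqrt n := Real.sqrt_pos.2 h0
  have hs1 : Real.sqrt n < 1 := by
    have := Real.sqrt_lt_sqrt h0.le h1
    rwa [Real.sqrt_one] at this
  have hsq : Real.sqrt n * Real.sqrt n = n := Real.mul_self_sqrt h0.le
  have d1 := (Real.hasDerivAt_log h0.ne').const_mul (1 / 2)
  have d2 := Real.hasDerivAt_sqrt h0.ne'
  have d3 := ((d2.const_sub 1).log (by linarith)).const_mul 2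
  have d4 := d1.sub d3
  have : HasDerivAt Th (1 / 2 * n⁻¹ - 2 * (-(1 / (2 * Real.sqrt n)) / (1 - Real.sqrt n))) n := d4
  refine this.congr_deriv ?_
  have hne : (1 : ℝ) - Real.sqrt n ≠ 0 := by linarith
  have hne2 : Real.sqrt n ≠ 0 := hs0.ne'
  have hn : n ≠ 0 := h0.ne'
  set s := Real.sqrt n with hs
  rw [← hsq]
  field_simp
  ring

/-- The growth estimate for solutions. -/
theorem Sol.growth {h : E → ℝ → E} {z : E} {v : ℝ → E} (hv : Sol h z v)
    (hh : ∀ s, Cara (fun w => h w s)) {t : ℝ} (ht : 0 ≤ t) :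
    Real.exp t * (‖v t‖ / (1 - ‖v t‖) ^ 2) ≤ ‖z‖ / (1 - ‖z‖) ^ 2 := by
  have hz : ‖z‖ < 1 := by have := hv.mem 0 le_rfl; rwa [hv.start] at this
  rcases eq_or_ne (v t) 0 with h0 | h0
  · rw [h0, norm_zero]
    have := norm_nonneg z
    simp only [zero_div, mul_zero]
    positivity
  have hvt : 0 < ‖v t‖ := norm_pos_iff.2 h0
  have hlo : ∀ s ∈ Icc 0 t, ‖v t‖ ≤ ‖v s‖ := fun s hs => hv.norm_antitone hh hs.1 hs.2
  have hhi : ∀ s ∈ Icc 0 t, ‖v s‖ ≤ ‖z‖ := fun s hs => by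
    have := hv.norm_antitone hh le_rfl hs.1
    rwa [hv.start] at this
  set c : ℝ := ‖v t‖ ^ 2 with hc
  have hc0 : 0 < c := by positivity
  set K : ℝ := 1 / (c * (1 - ‖z‖)) with hK
  have hK0 : 0 ≤ K := by
    have : 0 < 1 - ‖z‖ := by linarith
    positivity
  set N : ℝ → ℝ := fun s => ‖v s‖ ^ 2 with hN
  have hNlo : ∀ s ∈ Icc 0 t, c ≤ N s := by
    intro s hs
    have := hlo s hs
    simp only [hN, hc]
    gcongr
  have hNhi : ∀ s ∈ Icc 0 t, N s ≤ ‖z‖ ^ 2 := by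
    intro s hs
    have := hhi s hs
    simp only [hN]
    gcongr
  have hz2 : ‖z‖ ^ 2 < 1 := by nlinarith [norm_nonneg z]
  -- Lipschitz bound for `Th` on `[c, ‖z‖^2]`
  have hlip : ∀ x ∈ Icc c (‖z‖ ^ 2), ∀ y ∈ Icc c (‖z‖ ^ 2), ‖Th x - Th y‖ ≤ K * ‖x - y‖ := by
    intro x hx y hy
    have := Convex.norm_image_sub_le_of_norm_hasDerivWithin_le (f := Th)
      (f' := fun n => (1 + Real.sqrt n) / (2 * n * (1 - Real.sqrt n))) (s := Icc c (‖z‖ ^ 2))
      (C := K) (x := y) (y := x) (fun n hn =>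
        (Th_hasDerivAt (hc0.trans_le hn.1) (hn.2.trans_lt hz2)).hasDerivWithinAt) ?_
        (convex_Icc _ _) hy hx
    · exact this
    · intro n hn
      have hn0 : 0 < n := hc0.trans_le hn.1
      have hs1 : Real.sqrt n ≤ ‖z‖ := by
        rw [← Real.sqrt_sq (norm_nonneg z)]
        exact Real.sqrt_le_sqrt hn.2
      have hs0 : 0 ≤ Real.sqrt n := Real.sqrt_nonneg _
      rw [Real.norm_of_nonneg (by
        have : 0 < 1 - Real.sqrt n := by linarith
        positivity), hK, div_le_div_iff₀ (by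
        have : 0 < 1 - Real.sqrt n := by linarith
        positivity) (by
        have : 0 < 1 - ‖z‖ := by linarith
        positivity)]
      have h5 : c * (1 - ‖z‖) ≤ n * (1 - Real.sqrt n) := by
        apply mul_le_mul hn.1 (by linarith) (by linarith) hn0.le
      have h6 : 0 ≤ c * (1 - ‖z‖) := mul_nonneg hc0.le (by linarith)
      nlinarith
  have hAC : AbsolutelyContinuousOnInterval (fun s => s + Th (N s)) 0 t := by
    apply AbsolutelyContinuousOnInterval.fun_add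
    · have : ContDiffOn ℝ 1 (fun s : ℝ => s) (uIcc 0 t) := contDiffOn_id
      exact this.absolutelyContinuousOnInterval
    · apply ac_of_dist_le hK0 (hv.normSq_ac le_rfl ht)
      intro x hx y hy
      rw [uIcc_of_le ht] at hx hy
      rw [dist_eq_norm, dist_eq_norm]
      exact hlip _ ⟨hNlo x hx, hNhi x hx⟩ _ ⟨hNlo y hy, hNhi y hy⟩
  have hfin := ac_le_of_deriv_nonpos (f := fun s => s + Th (N s))
    (f' := fun s => 1 + (1 + Real.sqrt (N s)) / (2 * N s * (1 - Real.sqrt (N s))) *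
      (-(2 * (inner ℂ (v s) (h (v s) s)).re))) ht hAC (by
    filter_upwards [hv.normSq_hasDerivAt le_rfl ht] with s hs hsm
    have hsI : s ∈ Icc 0 t := ⟨hsm.1.le, hsm.2.le⟩
    have hN0 : 0 < N s := hc0.trans_le (hNlo s hsI)
    have hN1 : N s < 1 := (hNhi s hsI).trans_lt hz2
    have d1 := (Th_hasDerivAt hN0 hN1).comp s (hs hsm)
    refine ⟨(hasDerivAt_id s).add d1, ?_⟩
    have hsq : Real.sqrt (N s) = ‖v s‖ := Real.sqrt_sq (norm_nonneg _)
    rw [hsq]
    have hv1 : ‖v s‖ < 1 := hv.mem s hsm.1.le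
    have hv0 : 0 < ‖v s‖ := hvt.trans_le (hlo s hsI)
    have key := ((hh s).re_inner_ge hv1).1
    have h7 : 0 < 1 - ‖v s‖ := by linarith
    have h8 : (1 + ‖v s‖) / (2 * N s * (1 - ‖v s‖)) * (2 * (‖v s‖ ^ 2 * ((1 - ‖v s‖) / (1 + ‖v s‖))))
        = 1 := by
      simp only [hN]
      field_simp
    have h9 : 0 ≤ (1 + ‖v s‖) / (2 * N s * (1 - ‖v s‖)) := by positivity
    nlinarith [mul_le_mul_of_nonneg_left key h9])
  simp only [hN, zero_add, hv.start] at hfin
  have hTh : ∀ r : ℝ, 0 < r → r < 1 → Real.exp (Th (r ^ 2)) = r / (1 - r) ^ 2 := by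
    intro r hr0 hr1
    have h1r : 0 < 1 - r := by linarith
    rw [Th, Real.sqrt_sq hr0.le, Real.exp_sub, Real.log_pow]
    have e1 : 1 / 2 * (((2 : ℕ) : ℝ) * Real.log r) = Real.log r := by push_cast; ring
    have e2 : 2 * Real.log (1 - r) = Real.log ((1 - r) ^ 2) := by rw [Real.log_pow]; push_cast; ring
    rw [e1, e2, Real.exp_log hr0, Real.exp_log (by positivity)]
  have hz0 : 0 < ‖z‖ := hvt.trans_le (hhi t ⟨ht, le_rfl⟩)
  rw [← hTh ‖z‖ hz0 hz, ← hTh ‖v t‖ hvt (hv.mem t ht), ← Real.exp_add]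
  exact Real.exp_le_exp.2 hfin

end Growth

end Pool.Agent.KS7_39.H540
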